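import Pool.Agent.Helper74.Gp.Main
import Pool.Agent.Helper74.Hc.Final
import Pool.Agent.Helper74.Hc.Two
import Pool.Agent.Helper48.HcMainEven

/-! The classification for all sufficiently large orders. -/

namespace Pool.Agent.Helper74.Gp

open Finset Pool.Agent.Helper74.Hc Pool.Agent.Helper48

/-- degree `d + 1`, `d ≥ 3` odd -/
theorem low_ex (d : ℕ) (h3 : 3 ≤ d) (hd : Odd d) :
    ∃ m₀ : ℕ, ∀ m : ℕ, m₀ ≤ m → ExistsH (2 * m + 1) (d + 1) d := by
  obtain ⟨W, hW⟩ := main_even (ε := 1) (Or.inl rfl) (r := d + 1)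
    (by rw [Nat.odd_iff] at hd; rw [Nat.even_iff]; omega) (by omega)
  refine ⟨W.toNat, fun m hm => ?_⟩
  have h1 := hW m (by have := Int.self_le_toNat W; omega)
  unfold P at h1
  have e : (1 : ℤ) * (((d + 1 : ℕ) : ℤ) - 1) = d := by push_cast; ring
  rw [e] at h1
  exact existsH_of_lg h1

/-- degree `p - d - 3`, `d` even -/
theorem high_ex (d : ℕ) (h2 : 2 ≤ d) (hd : Even d) :
    ∃ m₀ : ℕ, ∀ m : ℕ, m₀ ≤ m → ExistsH (2 * m + 1) (2 * m - (d + 2)) d := by
  obtain ⟨W, hW⟩ := main_even (ε := -1) (Or.inr rfl) (r := d + 2)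
    (by rw [Nat.even_iff] at hd ⊢; omega) (by omega)
  refine ⟨W.toNat + d + 2, fun m hm => ?_⟩
  have h1 := hW m (by have := Int.self_le_toNat W; omega)
  unfold P at h1
  have h3 := h1.compl (by omega)
  have e : (-1 : ℤ) - (-1) * (((d + 2 : ℕ) : ℤ) - 1) = d := by push_cast; ring
  rw [e] at h3
  exact existsH_of_lg h3

/-- the classification for all large odd orders -/
theorem odd_all (d : ℕ) (hd : 1 ≤ d) : ∃ p₀ : ℕ, ∀ p : ℕ, p₀ ≤ p → Odd p → ∀ r : ℕ,
    (ExistsH p r d ↔ (d + 1 ≤ r ∧ r + d + 3 ≤ p ∧ Even r ∧ ¬ (d = 1 ∧ r = 2))) := by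
  obtain ⟨p₁, h₁⟩ := odd_full d hd
  rcases Nat.even_or_odd d with hde | hdo
  · have hde' := Nat.even_iff.1 hde
    obtain ⟨m₀, hm₀⟩ := high_ex d (by omega) hde
    refine ⟨p₁ + 2 * m₀ + 2 * d + 5, fun p hp hodd r => ?_⟩
    have hodd' := Nat.odd_iff.1 hodd
    by_cases hr : r + d + 3 = p
    · constructor
      · intro _
        exact ⟨by omega, by omega, by rw [Nat.even_iff]; omega, by omega⟩
      · intro _
        obtain ⟨m, hm⟩ := hodd
        have h4 := hm₀ m (by omega)
        have e : 2 * m - (d + 2) = r := by omega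
        rw [e] at h4
        rw [hm]
        exact h4
    · rw [h₁ p (by omega) hodd r (fun h => by rw [Nat.odd_iff] at h; omega) (fun _ => hr)]
      constructor
      · rintro ⟨a, b, c⟩
        exact ⟨by omega, by omega, a, by omega⟩
      · rintro ⟨a, b, c, _⟩
        have c' := Nat.even_iff.1 c
        exact ⟨c, by omega, by omega⟩
  · have hdo' := Nat.odd_iff.1 hdo
    by_cases h3 : 3 ≤ d
    · obtain ⟨m₀, hm₀⟩ := low_ex d h3 hdo
      refine ⟨p₁ + 2 * m₀ + 2 * d + 7, fun p hp hodd r => ?_⟩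
      have hodd' := Nat.odd_iff.1 hodd
      by_cases hr : r = d + 1
      · constructor
        · intro _
          exact ⟨by omega, by omega, by rw [Nat.even_iff]; omega, by omega⟩
        · intro _
          obtain ⟨m, hm⟩ := hodd
          have h4 := hm₀ m (by omega)
          rw [hm, hr]
          exact h4
      · rw [h₁ p (by omega) hodd r (fun _ => hr) (fun h => by rw [Nat.even_iff] at h; omega)]
        constructor
        · rintro ⟨a, b, c⟩
          exact ⟨by omega, by omega, a, by omega⟩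
        · rintro ⟨a, b, c, _⟩
          have c' := Nat.even_iff.1 c
          exact ⟨c, by omega, by omega⟩
    · have hd1 : d = 1 := by omega
      subst hd1
      refine ⟨p₁, fun p hp hodd r => ?_⟩
      have hodd' := Nat.odd_iff.1 hodd
      by_cases hr : r = 2
      · constructor
        · intro hE
          rw [hr] at hE
          exact (no_two hE hodd).elim
        · rintro ⟨_, _, _, h5⟩
          exact absurd ⟨rfl, hr⟩ h5
      · rw [h₁ p (by omega) hodd r (fun _ => hr) (fun h => by rw [Nat.even_iff] at h; omega)]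
        constructor
        · rintro ⟨a, b, c⟩
          exact ⟨by omega, by omega, a, by omega⟩
        · rintro ⟨a, b, c, _⟩
          have c' := Nat.even_iff.1 c
          exact ⟨c, by omega, by omega⟩

/-- the classification for all large orders -/
theorem all_large (d : ℕ) (hd : 1 ≤ d) : ∃ p₀ : ℕ, ∀ p : ℕ, p₀ ≤ p → ∀ r : ℕ,
    (ExistsH p r d ↔
      (Even p ∧ d + 2 ≤ r ∧ r + d + 4 ≤ p ∧ Even (r + d) ∧ (p % 4 = 2 → 4 ∣ r + d)) ∨
      (Odd p ∧ d + 1 ≤ r ∧ r + d + 3 ≤ p ∧ Even r ∧ ¬ (d = 1 ∧ r = 2))) := by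
  obtain ⟨p₁, h₁⟩ := odd_all d hd
  refine ⟨p₁ + 1000 * 5 ^ d, fun p hp r => ?_⟩
  rcases Nat.even_or_odd p with he | ho
  · rw [even_main d hd p (by omega) he r]
    have hno : ¬ Odd p := Nat.not_odd_iff_even.2 he
    tauto
  · rw [h₁ p (by omega) ho r]
    have hne : ¬ Even p := Nat.not_even_iff_odd.2 ho
    tauto

end Pool.Agent.Helper74.Gp
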