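import Mathlib

/-! GP-10. A recursion which reaches all large integers.

PLAN. (10a) Fix `M ≥ 1`, `gcd(e, M) = 1`. All constants: `A = a / l`, `B = n / k` (rational), `A < B`, `A > 1`.
Choose a large `γ₀` with `P γ₀` (by `h0`). Claim: there are real (or rational) numbers `α i ≤ β i`, `i ≥ 1`,
with: every integer `μ ∈ [α i, β i]` with `μ ≡ γ₀ + i e (mod M)` satisfies `P μ`. Start:
`α 1 = A γ₀ + s/l`, `β 1 = B γ₀` (one step from `γ₀`). Step: `α (i+1) = A (α i + M) + s/l`,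
`β (i+1) = B (β i - M)`: for `μ ∈ [α (i+1), β (i+1)]` the interval
`[max (μ/B) (α i), min ((l μ - s)/a) (β i)]` has length `≥ M` (as `μ` is large: `(l μ - s)/a - k μ/n ≥ M`
once `μ ≥ some constant`, `β i - α i ≥ M`, `(l μ - s)/a - α i ≥ M`, `β i - μ/B ≥ M`), hence contains
an integer `γ ≡ γ₀ + i e (mod M)`, and `step` gives `P μ`. If `γ₀` is large then
`α i ≤ A^i (γ₀ + K)` and `β i ≥ B^i (γ₀ - K)` with a constant `K` (geometric series; or: with
`α' = α + K`, `β' = β - K` the recursions become `α' (i+1) ≤ A α' i`, `β' (i+1) ≥ B β' i` for `K` large), and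
`B^i (γ₀ - K) ≥ A^(i+M) (γ₀ + K)` for all `i ≥ i₀` because `(B/A)^i → ∞`. (10b) For a residue `ρ` mod `M`
the indices `i` with `γ₀ + i e ≡ ρ` form a residue class mod `M` (gcd), and the intervals
`[α i, β i]` for these `i ≥ i₀` overlap (`α (i + M) ≤ β i + 1`) and cover everything `≥ α (i₀ + M)`. -/

namespace Pool.Agent.Helper74.Gp

/-- an integer of a given residue class in a long interval -/
private theorem exists_int {M : ℤ} (hM : 0 < M) (r : ℤ) {p q : ℝ} (h : p + M ≤ q) :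
    ∃ γ : ℤ, (γ - r) % M = 0 ∧ p ≤ γ ∧ (γ : ℝ) ≤ q := by
  have hM' : (0 : ℝ) < M := by exact_mod_cast hM
  refine ⟨r + M * ⌈(p - r) / M⌉, ?_, ?_, ?_⟩
  · have e1 : r + M * ⌈(p - r) / M⌉ - r = M * ⌈(p - r) / M⌉ := by ring
    rw [e1]
    exact Int.mul_emod_right _ _
  · have h1 := Int.le_ceil ((p - r) / (M : ℝ))
    rw [div_le_iff₀ hM'] at h1
    push_cast
    linarith
  · have h1 := Int.ceil_lt_add_one ((p - r) / (M : ℝ))
    have h2 : (⌈(p - r) / (M : ℝ)⌉ : ℝ) * M < ((p - r) / M + 1) * M :=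
      mul_lt_mul_of_pos_right h1 hM'
    have h3 : ((p - r) / M + 1) * M = p - r + M := by
      field_simp
    rw [h3] at h2
    push_cast
    linarith

private theorem cov_real {P : ℤ → Prop} {M e G : ℤ} {A B : ℝ} (hM : 0 < M) (hcop : Int.gcd e M = 1)
    (hA : 1 < A) (hAB : A < B)
    (step : ∀ γ : ℤ, G ≤ γ → P γ → ∀ μ : ℤ, (μ - γ - e) % M = 0 → A * γ ≤ μ → (μ : ℝ) ≤ B * γ → P μ)
    (h0 : ∀ b : ℤ, ∃ γ, b ≤ γ ∧ P γ) : ∃ Γ : ℤ, ∀ γ, Γ ≤ γ → P γ := by
  have hM' : (0 : ℝ) < M := by exact_mod_cast hM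
  have hA0 : 0 < A := by linarith
  have hB0 : 0 < B := by linarith
  have hA1 : 0 < A - 1 := by linarith
  have hB1 : 0 < B - 1 := by linarith
  have hBA : 0 < B - A := by linarith
  -- the constant K
  set K : ℝ := A * M / (A - 1) with hK
  have hK0 : 0 < K := by positivity
  have hKA : A * (K - M) = K := by
    rw [hK]
    field_simp
    ring
  have hKM : M ≤ K := by
    have h1 : A * (K - M) > 0 := by rw [hKA]; exact hK0
    have h2 : 0 < K - M := by
      by_contra h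
      push Not at h
      nlinarith
    linarith
  have hKB : K ≤ B * (K - M) := by
    have h1 : A * (K - M) ≤ B * (K - M) := mul_le_mul_of_nonneg_right hAB.le (by linarith)
    linarith
  -- a large starting point
  obtain ⟨b, hb⟩ := exists_int_gt (max (max (G : ℝ) K)
    (max ((M + (A + B) * K) / (B - A)) (M * A * B / (B - A))))
  obtain ⟨γ₀, hγb, hP0⟩ := h0 b
  have hγ : max (max (G : ℝ) K) (max ((M + (A + B) * K) / (B - A)) (M * A * B / (B - A))) < (γ₀ : ℝ) :=
    lt_of_lt_of_le hb (by exact_mod_cast hγb)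
  have hγG : (G : ℝ) ≤ γ₀ := ((le_max_left _ _).trans (le_max_left _ _)).trans hγ.le
  have hγK : K ≤ γ₀ := ((le_max_right _ _).trans (le_max_left _ _)).trans hγ.le
  have hγ1 : (M + (A + B) * K) / (B - A) ≤ γ₀ := ((le_max_left _ _).trans (le_max_right _ _)).trans hγ.le
  have hγ2 : M * A * B / (B - A) ≤ γ₀ := ((le_max_right _ _).trans (le_max_right _ _)).trans hγ.le
  rw [div_le_iff₀ hBA] at hγ1 hγ2
  have hγ0 : (0 : ℝ) < γ₀ := lt_of_lt_of_le hK0 hγK
  -- the sequences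
  set x : ℕ → ℝ := fun i => A ^ i * (γ₀ + K) - K with hx
  set y : ℕ → ℝ := fun i => B ^ i * (γ₀ - K) + K with hy
  have hApow : ∀ i : ℕ, 1 ≤ A ^ i := fun i => one_le_pow₀ hA.le
  have hxγ : ∀ i, (γ₀ : ℝ) ≤ x i := by
    intro i
    have h1 := hApow i
    have h2 : 1 * ((γ₀ : ℝ) + K) ≤ A ^ i * (γ₀ + K) := mul_le_mul_of_nonneg_right h1 (by linarith)
    simp only [hx]
    linarith
  have hxs : ∀ i, A * (x i + M) = x (i + 1) := by
    intro i
    simp only [hx]
    rw [pow_succ]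
    linear_combination -hKA
  have hys : ∀ i, y (i + 1) ≤ B * (y i - M) := by
    intro i
    simp only [hy]
    rw [pow_succ]
    nlinarith [hKB]
  have hxmono : Monotone x := by
    apply monotone_nat_of_le_succ
    intro i
    rw [← hxs i]
    have h1 := hxγ i
    nlinarith
  have hwide : ∀ i, x (i + 1) + M ≤ y (i + 1) := by
    intro i
    have h1 : A ^ i ≤ B ^ i := pow_le_pow_left₀ hA0.le hAB.le i
    have h2 : 0 ≤ B * (γ₀ - K) := mul_nonneg hB0.le (by linarith)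
    have h3 : A ^ i * (B * (γ₀ - K)) ≤ B ^ i * (B * (γ₀ - K)) := mul_le_mul_of_nonneg_right h1 h2
    have h4 : (M : ℝ) ≤ B * (γ₀ - K) - A * (γ₀ + K) := by nlinarith
    have h5 : 1 * (B * (γ₀ - K) - A * (γ₀ + K)) ≤ A ^ i * (B * (γ₀ - K) - A * (γ₀ + K)) :=
      mul_le_mul_of_nonneg_right (hApow i) (by linarith)
    simp only [hx, hy]
    rw [pow_succ, pow_succ]
    nlinarith
  -- the main induction
  have hmain : ∀ i : ℕ, ∀ μ : ℤ, (μ - (γ₀ + (i + 1 : ℕ) * e)) % M = 0 → x (i + 1) ≤ μ →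
      (μ : ℝ) ≤ y (i + 1) → P μ := by
    intro i
    induction i with
    | zero =>
      intro μ h1 h2 h3
      refine step γ₀ (by exact_mod_cast hγG) hP0 μ ?_ ?_ ?_
      · have e1 : μ - γ₀ - e = μ - (γ₀ + ((0 + 1 : ℕ) : ℤ) * e) := by push_cast; ring
        rw [e1]
        exact h1
      · have h4 := hxs 0
        have h5 := hxγ 0
        nlinarith
      · have h4 := hys 0
        have h5 : y 0 = γ₀ := by simp [hy]
        rw [h5] at h4
        nlinarith
    | succ i ih =>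
      intro μ h1 h2 h3
      have hμ0 : (γ₀ : ℝ) ≤ μ := (hxγ _).trans h2
      have hlen : μ / B + M ≤ μ / A := by
        rw [div_add' _ _ _ hB0.ne', div_le_div_iff₀ hB0 hA0]
        nlinarith
      have hp1 : x (i + 1) + M ≤ μ / A := by
        rw [le_div_iff₀ hA0, mul_comm, hxs]
        exact h2
      have hp2 : μ / B + M ≤ y (i + 1) := by
        have h4 : (μ : ℝ) ≤ B * (y (i + 1) - M) := h3.trans (hys _)
        have h5 : μ / B ≤ y (i + 1) - M := by
          rw [div_le_iff₀ hB0, mul_comm]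
          exact h4
        linarith
      have hmm : max (x (i + 1)) (μ / B) + M ≤ min (y (i + 1)) (μ / A) := by
        rcases le_total (x (i + 1)) (μ / B) with h | h
        · rw [max_eq_right h]
          exact le_min hp2 hlen
        · rw [max_eq_left h]
          exact le_min (hwide i) hp1
      obtain ⟨γ, hγm, hγl, hγu⟩ := exists_int hM (γ₀ + (i + 1 : ℕ) * e) hmm
      have hPγ : P γ := ih γ hγm ((le_max_left _ _).trans hγl) (hγu.trans (min_le_left _ _))
      have hG' : (G : ℝ) ≤ γ := hγG.trans ((hxγ _).trans ((le_max_left _ _).trans hγl))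
      refine step γ (by exact_mod_cast hG') hPγ μ ?_ ?_ ?_
      · have e1 : μ - γ - e = (μ - (γ₀ + ((i + 1 + 1 : ℕ) : ℤ) * e)) - (γ - (γ₀ + ((i + 1 : ℕ) : ℤ) * e)) := by
          push_cast; ring
        rw [e1]
        exact Int.emod_eq_zero_of_dvd (dvd_sub (Int.dvd_of_emod_eq_zero h1) (Int.dvd_of_emod_eq_zero hγm))
      · have h4 := hγu.trans (min_le_right _ _)
        rw [le_div_iff₀ hA0] at h4
        linarith
      · have h4 := (le_max_right _ _).trans hγl
        rw [div_le_iff₀ hB0] at h4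
        linarith
  -- overlap
  obtain ⟨m, hm⟩ : ∃ m : ℕ, (m : ℤ) = M := ⟨M.toNat, Int.toNat_of_nonneg hM.le⟩
  have hq : 1 < B / A := by
    rw [one_lt_div hA0]
    exact hAB
  obtain ⟨j₀, hj₀⟩ := pow_unbounded_of_one_lt (A ^ m * (γ₀ + K) / (γ₀ - K)) hq
  have hγK' : 0 < (γ₀ : ℝ) - K := by
    have : K < γ₀ := lt_of_le_of_lt ((le_max_right _ _).trans (le_max_left _ _)) hγ
    linarith
  have hover : ∀ j, j₀ ≤ j → x (j + m) ≤ y j := by
    intro j hj
    have h1 : (B / A) ^ j₀ ≤ (B / A) ^ j := pow_le_pow_right₀ hq.le hj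
    have h2 : A ^ m * (γ₀ + K) / (γ₀ - K) ≤ (B / A) ^ j := hj₀.le.trans h1
    rw [div_le_iff₀ hγK', div_pow, div_mul_eq_mul_div, le_div_iff₀ (pow_pos hA0 j)] at h2
    simp only [hx, hy]
    rw [pow_add]
    nlinarith
  refine ⟨⌈x (j₀ + m + 1)⌉, ?_⟩
  intro μ hμ
  have hμx : x (j₀ + m + 1) ≤ μ := (Int.le_ceil _).trans (by exact_mod_cast hμ)
  have hex : ∃ i, (μ : ℝ) < x i := by
    obtain ⟨i, hi⟩ := pow_unbounded_of_one_lt (((μ : ℝ) + K) / (γ₀ + K)) hA
    refine ⟨i, ?_⟩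
    have h1 : (0 : ℝ) < γ₀ + K := by linarith
    rw [div_lt_iff₀ h1] at hi
    simp only [hx]
    linarith
  classical
  set I := Nat.find hex with hI
  have hI1 : (μ : ℝ) < x I := Nat.find_spec hex
  have hI2 : j₀ + m + 1 < I := by
    by_contra h
    push Not at h
    have h1 := hxmono h
    linarith
  obtain ⟨i1, hi1⟩ : ∃ i1, I = i1 + 1 := ⟨I - 1, by omega⟩
  have hi2 : x i1 ≤ μ := by
    have h1 := Nat.find_min hex (m := i1) (by omega)
    push Not at h1
    exact h1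
  -- the index
  obtain ⟨u, v, huv⟩ : ∃ u v : ℤ, u * e + v * M = 1 := by
    refine ⟨Int.gcdA e M, Int.gcdB e M, ?_⟩
    have h1 := Int.gcd_eq_gcd_ab e M
    rw [hcop] at h1
    push_cast at h1
    linarith
  set T : ℤ := ((γ₀ + i1 * e - μ) * u) % M with hT
  have hT0 : 0 ≤ T := Int.emod_nonneg _ hM.ne'
  have hT1 : T < M := Int.emod_lt_of_pos _ hM
  obtain ⟨t, ht⟩ : ∃ t : ℕ, (t : ℤ) = T := ⟨T.toNat, Int.toNat_of_nonneg hT0⟩
  have htm : t < m := by
    have : (t : ℤ) < m := by rw [ht, hm]; exact hT1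
    exact_mod_cast this
  obtain ⟨w, hw⟩ : ∃ w, i1 = w + 1 + t := ⟨i1 - 1 - t, by omega⟩
  have hdvd : M ∣ (γ₀ + i1 * e - μ) * u - T := by
    rw [hT]
    exact Int.dvd_self_sub_emod
  refine hmain w μ ?_ ?_ ?_
  · apply Int.emod_eq_zero_of_dvd
    obtain ⟨c, hc⟩ := hdvd
    refine ⟨-(c * e) - (γ₀ + i1 * e - μ) * v, ?_⟩
    have hw' : (i1 : ℤ) = w + 1 + T := by
      rw [hw, ← ht]
      push_cast
      ring
    push_cast
    have h5 : T = (γ₀ + i1 * e - μ) * u - M * c := by linarith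
    have h6 : (w : ℤ) + 1 = i1 - T := by linarith
    rw [h6]
    linear_combination (-e) * hc + (γ₀ + i1 * e - μ) * huv
  · refine le_trans (hxmono ?_) hi2
    omega
  · have h1 : x I ≤ x (w + 1 + m) := hxmono (by omega)
    have h2 := hover (w + 1) (by omega)
    linarith

/-- GP-10 -/
theorem cov {P : ℤ → Prop} {M e a s l n k G : ℤ} (hM : 0 < M) (hcop : Int.gcd e M = 1)
    (hl : 0 < l) (hk : 0 < k) (hla : l < a) (hlt : a * k < n * l)
    (step : ∀ γ, G ≤ γ → P γ → ∀ μ, (μ - γ - e) % M = 0 → a * γ + s ≤ l * μ → k * μ ≤ n * γ → P μ)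
    (h0 : ∀ B, ∃ γ, B ≤ γ ∧ P γ) : ∃ Γ, ∀ γ, Γ ≤ γ → P γ := by
  have hl' : (0 : ℝ) < l := by exact_mod_cast hl
  have hk' : (0 : ℝ) < k := by exact_mod_cast hk
  have hla' : (l : ℝ) < a := by exact_mod_cast hla
  have hlt' : (a : ℝ) * k < n * l := by exact_mod_cast hlt
  have hA : (1 : ℝ) < a / l := by
    rw [one_lt_div hl']
    exact hla'
  have hAB : (a : ℝ) / l < n / k := by
    rw [div_lt_div_iff₀ hl' hk']
    exact hlt'
  set A' : ℝ := ((a : ℝ) / l + n / k) / 2 with hA'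
  have h1 : (a : ℝ) / l < A' := by linarith
  have h2 : A' < (n : ℝ) / k := by linarith
  obtain ⟨b, hb⟩ := exists_int_gt (s / l / (A' - a / l))
  refine cov_real (G := max G b) (A := A') (B := n / k) hM hcop (by linarith) h2 ?_ h0
  intro γ hγ hPγ μ hμ1 hμ2 hμ3
  have hγb : (b : ℝ) ≤ γ := by exact_mod_cast (le_max_right _ _).trans hγ
  refine step γ ((le_max_left _ _).trans hγ) hPγ μ hμ1 ?_ ?_
  · have h3 : s / l / (A' - a / l) < (γ : ℝ) := lt_of_lt_of_le hb hγb
    rw [div_lt_iff₀ (by linarith), div_lt_iff₀ hl'] at h3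
    have h4 : (γ : ℝ) * (A' - a / l) * l = γ * A' * l - γ * a := by
      field_simp
    rw [h4] at h3
    have h5 : (a : ℝ) * γ + s ≤ l * μ := by
      have h6 : l * (A' * γ) ≤ l * (μ : ℝ) := mul_le_mul_of_nonneg_left hμ2 hl'.le
      nlinarith
    exact_mod_cast h5
  · have h3 : (k : ℝ) * μ ≤ n * γ := by
      have h4 := mul_le_mul_of_nonneg_left hμ3 hk'.le
      have h5 : (k : ℝ) * (n / k * γ) = n * γ := by
        field_simp
      rw [h5] at h4
      exact h4
    exact_mod_cast h3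

end Pool.Agent.Helper74.Gp
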