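import Mathlib
import Pool.Agent.Helper74.Gp.Cov

/-! GP-13. The recursions.

PLAN. (13a) For `κ` with `0 ≤ κ < 24` put `Q γ := P (24 γ + κ)`; show `∃ Γ, ∀ γ ≥ Γ, Q γ`; then take the
maximum over the 24 classes (e.g. `choose` a function `Γ : ℕ → ℤ` for `κ < 24` and use a bound of
`∑ κ ∈ range 24, |24 Γ κ + 24|` or `Finset.exists_le`). (13b) `Q` satisfies the hypotheses of `cov`:
if `κ % 3 ≠ 1`: `M = 12`, `e = 2κ + 1`, `a = 26`, `s = 25`, `l = 1`, `k = 5`, `n = 134`, `G = 0`: for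
`μ ≡ γ + e (mod 12)` put `c = 24 γ + κ`, `u = μ - 25 γ - κ - 1`, `s' = (c - 12 - 13 u) / 12`; then
`u ≡ κ (mod 12)`, `c = 13 u + 12 + 12 s'`, `0 ≤ s'`, `s' + 1 ≤ u`, `25 c + 24 u + 24 = 24 μ + κ` (all `omega`),
use `hA`. If `κ % 3 = 1`: `M = 4`, `e = (2κ + 1) / 3`, `a = 47`, `s = 44`, `l = 2`, `k = 1`, `n = 24`,
`G = 0`: `u = 25 γ + κ - μ`, `w = 24 γ + κ - 2 u - 1`, `s' = (w - 12 - 13 u) / 12`, use `hB` (`25 c - 24 u = 24 μ + κ`).
`Int.gcd e M = 1`: case split on the 24 values of `κ` (`decide`). `h0`: from `hC κ (24 B + κ)`.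
(13c) `κ` arbitrary, `M = 1`, `e = 1`, `a = 25`, `s = 24 + W'`, `l = 1`, `k = 1`, `n = 49`, `G = W'`, where
`W' = max W 0`: `u = μ - 25 γ - κ - 1`, `W' ≤ u ≤ c = 24 γ + κ`. -/

namespace Pool.Agent.Helper74.Gp

open Finset

/-- GP-13a. From all residue classes to all integers. -/
theorem classes {P : ℤ → Prop} (h : ∀ κ : ℤ, 0 ≤ κ → κ < 24 → ∃ Γ : ℤ, ∀ γ, Γ ≤ γ → P (24 * γ + κ)) :
    ∃ W : ℤ, ∀ m, W ≤ m → P m := by
  choose! Γ hΓ using h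
  refine ⟨24 * ∑ κ ∈ range 24, |Γ (κ : ℤ)|, fun m hm => ?_⟩
  have h1 : 0 ≤ m % 24 := Int.emod_nonneg m (by norm_num)
  have h2 : m % 24 < 24 := Int.emod_lt_of_pos m (by norm_num)
  have h3 : (∑ κ ∈ range 24, |Γ (κ : ℤ)|) ≤ m / 24 := by
    rw [Int.le_ediv_iff_mul_le (by norm_num)]
    linarith
  have h4 : |Γ (((m % 24).toNat : ℕ) : ℤ)| ≤ ∑ κ ∈ range 24, |Γ (κ : ℤ)| := by
    apply Finset.single_le_sum (f := fun κ : ℕ => |Γ (κ : ℤ)|)
    · intro i _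
      exact abs_nonneg _
    · rw [mem_range]
      omega
  rw [Int.toNat_of_nonneg h1] at h4
  have h5 := hΓ (m % 24) h1 h2 (m / 24) (by
    have := le_abs_self (Γ (m % 24))
    linarith)
  have h6 : 24 * (m / 24) + m % 24 = m := Int.mul_ediv_add_emod m 24
  rwa [h6] at h5

private theorem big_h0 {P : ℤ → Prop}
    (hC : ∀ κ B : ℤ, ∃ c, B ≤ c ∧ c % 24 = κ % 24 ∧ P c) {κ : ℤ} (h0 : 0 ≤ κ) (h1 : κ < 24) (B : ℤ) :
    ∃ γ, B ≤ γ ∧ P (24 * γ + κ) := by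
  obtain ⟨c, hc1, hc2, hc3⟩ := hC κ (24 * B + κ)
  refine ⟨(c - κ) / 24, by omega, ?_⟩
  have : 24 * ((c - κ) / 24) + κ = c := by omega
  rwa [this]

/-- GP-13b -/
theorem big4 {P : ℤ → Prop}
    (hA : ∀ c u s : ℤ, 0 ≤ s → s + 1 ≤ u → c = 13 * u + 12 + 12 * s → P c → P (25 * c + 24 * u + 24))
    (hB : ∀ w u s : ℤ, 0 ≤ s → s + 1 ≤ u → w = 13 * u + 12 + 12 * s → P (w + 2 * u + 1) →
      P (25 * (w + 2 * u + 1) - 24 * u))
    (hC : ∀ κ B : ℤ, ∃ c, B ≤ c ∧ c % 24 = κ % 24 ∧ P c) : ∃ W : ℤ, ∀ m, W ≤ m → P m := by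
  apply classes
  intro κ hκ0 hκ1
  by_cases hκ : κ % 3 = 1
  · refine cov (P := fun γ => P (24 * γ + κ)) (M := 4) (e := (2 * κ + 1) / 3) (a := 47) (s := 44)
      (l := 2) (n := 24) (k := 1) (G := 0) (by norm_num) ?_ (by norm_num) (by norm_num)
      (by norm_num) (by norm_num) ?_ (big_h0 hC hκ0 hκ1)
    · interval_cases κ <;> revert hκ <;> decide
    · intro γ hγ hP μ hμ h1 h2
      have h3 : P ((24 * γ + κ - 2 * (25 * γ + κ - μ) - 1) + 2 * (25 * γ + κ - μ) + 1) := by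
        have : (24 * γ + κ - 2 * (25 * γ + κ - μ) - 1) + 2 * (25 * γ + κ - μ) + 1 = 24 * γ + κ := by
          ring
        rwa [this]
      have h4 := hB (24 * γ + κ - 2 * (25 * γ + κ - μ) - 1) (25 * γ + κ - μ)
        ((24 * γ + κ - 2 * (25 * γ + κ - μ) - 1 - 12 - 13 * (25 * γ + κ - μ)) / 12)
        (by omega) (by omega) (by omega) h3
      have h5 : 25 * ((24 * γ + κ - 2 * (25 * γ + κ - μ) - 1) + 2 * (25 * γ + κ - μ) + 1) -
          24 * (25 * γ + κ - μ) = 24 * μ + κ := by ring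
      rwa [h5] at h4
  · refine cov (P := fun γ => P (24 * γ + κ)) (M := 12) (e := 2 * κ + 1) (a := 26) (s := 25)
      (l := 1) (n := 134) (k := 5) (G := 0) (by norm_num) ?_ (by norm_num) (by norm_num)
      (by norm_num) (by norm_num) ?_ (big_h0 hC hκ0 hκ1)
    · interval_cases κ <;> revert hκ <;> decide
    · intro γ hγ hP μ hμ h1 h2
      have h4 := hA (24 * γ + κ) (μ - 25 * γ - κ - 1)
        ((24 * γ + κ - 12 - 13 * (μ - 25 * γ - κ - 1)) / 12)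
        (by omega) (by omega) (by omega) hP
      have h5 : 25 * (24 * γ + κ) + 24 * (μ - 25 * γ - κ - 1) + 24 = 24 * μ + κ := by ring
      rwa [h5] at h4

/-- GP-13c -/
theorem bigd {P : ℤ → Prop} {W : ℤ}
    (hD : ∀ c u : ℤ, W ≤ u → 0 ≤ u → u ≤ c → P c → P (25 * c + 24 * u + 24))
    (hC : ∀ κ B : ℤ, ∃ c, B ≤ c ∧ c % 24 = κ % 24 ∧ P c) : ∃ W : ℤ, ∀ m, W ≤ m → P m := by
  apply classes
  intro κ hκ0 hκ1
  have hW1 : W ≤ max W 0 := le_max_left _ _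
  have hW2 : 0 ≤ max W 0 := le_max_right _ _
  generalize max W 0 = W' at hW1 hW2
  refine cov (P := fun γ => P (24 * γ + κ)) (M := 1) (e := 1) (a := 25) (s := 24 + W')
    (l := 1) (n := 49) (k := 1) (G := W') (by norm_num) (by norm_num) (by norm_num) (by norm_num)
    (by norm_num) (by norm_num) ?_ (big_h0 hC hκ0 hκ1)
  intro γ hγ hP μ _ h1 h2
  have h4 := hD (24 * γ + κ) (μ - 25 * γ - κ - 1) (by omega) (by omega) (by omega) hP
  have h5 : 25 * (24 * γ + κ) + 24 * (μ - 25 * γ - κ - 1) + 24 = 24 * μ + κ := by ring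
  rwa [h5] at h4

end Pool.Agent.Helper74.Gp
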