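import Mathlib

/-! GP-11. From one core in each of six orbits to arbitrarily large cores in every class modulo 24.

PLAN: `h7` and `h15` act on the residues mod 24 by `c ↦ 7c + 3` and `c ↦ 7c + 15`; the six lists in `hb` are the
orbits. First: by `h1` (iterated) from a core in class `i` we get cores in class `i` beyond any bound
(`∀ B, ∃ c, B ≤ c ∧ c % 24 = i ∧ P c`; induction on `B.toNat` or on the number of steps, each step increases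
`c`). Call this `Q i`. Then `Q i → Q ((7 i + 3) % 24)` and `Q i → Q ((7 i + 15) % 24)` (take the core
`≥ max B W`). From any element of an orbit all four elements are reached (e.g. orbit
`0,3,12,15`: `7·0+3 = 3`, `7·0+15 = 15`, `7·3+15 = 36 ≡ 12`, `7·15+3 = 108 ≡ 12`, `7·15+15 = 120 ≡ 0`,
`7·3+3 = 24 ≡ 0`, `7·12+3 = 87 ≡ 15`, `7·12+15 = 99 ≡ 3`). Six orbits, 24 starting points: a small
amount of case analysis (`fin_cases`/`rcases` on `i`). -/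

namespace Pool.Agent.Helper74.Gp

private theorem comb : ∀ j ∈ Finset.Ico (0 : ℤ) 24,
    ∃ o ∈ ([[0, 3, 12, 15], [2, 5, 14, 17], [6, 9, 18, 21], [8, 11, 20, 23], [1, 10, 13, 22],
      [4, 7, 16, 19]] : List (List ℤ)), ∀ i ∈ o, i = j ∨ (7 * i + 3) % 24 = j ∨ (7 * i + 15) % 24 = j ∨
        (7 * ((7 * i + 3) % 24) + 15) % 24 = j := by
  decide

/-- GP-11 -/
theorem cores {P : ℤ → Prop} {W : ℤ} (h1 : ∀ c, 0 ≤ c → P c → ∃ c', c < c' ∧ c' % 24 = c % 24 ∧ P c')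
    (h7 : ∀ c, W ≤ c → P c → ∃ c', c ≤ c' ∧ c' % 24 = (7 * c + 3) % 24 ∧ P c')
    (h15 : ∀ c, W ≤ c → P c → ∃ c', c ≤ c' ∧ c' % 24 = (7 * c + 15) % 24 ∧ P c')
    (hb : ∀ o ∈ ([[0, 3, 12, 15], [2, 5, 14, 17], [6, 9, 18, 21], [8, 11, 20, 23], [1, 10, 13, 22],
      [4, 7, 16, 19]] : List (List ℤ)), ∃ i ∈ o, ∃ c, 0 ≤ c ∧ c % 24 = i ∧ P c) :
    ∀ κ B : ℤ, ∃ c, B ≤ c ∧ c % 24 = κ % 24 ∧ P c := by
  have s1 : ∀ i : ℤ, (∃ c, 0 ≤ c ∧ c % 24 = i ∧ P c) → ∀ B : ℤ, ∃ c, B ≤ c ∧ c % 24 = i ∧ P c := by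
    intro i hi
    have hn : ∀ n : ℕ, ∃ c, (n : ℤ) ≤ c ∧ c % 24 = i ∧ P c := by
      intro n
      induction n with
      | zero => simpa using hi
      | succ n ih =>
        obtain ⟨c, hc1, hc2, hc3⟩ := ih
        obtain ⟨c', h1', h2', h3'⟩ := h1 c (by omega) hc3
        exact ⟨c', by push_cast; omega, by omega, h3'⟩
    intro B
    obtain ⟨c, hc1, hc2, hc3⟩ := hn B.toNat
    exact ⟨c, by omega, hc2, hc3⟩
  have s7 : ∀ i : ℤ, (∀ B : ℤ, ∃ c, B ≤ c ∧ c % 24 = i ∧ P c) →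
      ∀ B : ℤ, ∃ c, B ≤ c ∧ c % 24 = (7 * i + 3) % 24 ∧ P c := by
    intro i hi B
    obtain ⟨c, hc1, hc2, hc3⟩ := hi (max B W)
    obtain ⟨c', h1', h2', h3'⟩ := h7 c (by omega) hc3
    exact ⟨c', by omega, by omega, h3'⟩
  have s15 : ∀ i : ℤ, (∀ B : ℤ, ∃ c, B ≤ c ∧ c % 24 = i ∧ P c) →
      ∀ B : ℤ, ∃ c, B ≤ c ∧ c % 24 = (7 * i + 15) % 24 ∧ P c := by
    intro i hi B
    obtain ⟨c, hc1, hc2, hc3⟩ := hi (max B W)
    obtain ⟨c', h1', h2', h3'⟩ := h15 c (by omega) hc3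
    exact ⟨c', by omega, by omega, h3'⟩
  intro κ
  obtain ⟨o, ho, hall⟩ := comb (κ % 24) (by rw [Finset.mem_Ico]; omega)
  obtain ⟨i, hi, hc⟩ := hb o ho
  have hQ := s1 i hc
  rcases hall i hi with h | h | h | h
  · rw [← h]; exact hQ
  · rw [← h]; exact s7 _ hQ
  · rw [← h]; exact s15 _ hQ
  · rw [← h]; exact s15 _ (s7 _ hQ)

end Pool.Agent.Helper74.Gp
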