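import Pool.Agent.Helper74.Hc.ExProd

/-! Extreme label graphs: degree `r`, slope `± (r - 1)`. Liftable graphs. -/

namespace Pool.Agent.Helper74.Gp

open Finset Pool.Agent.Helper74.Hc

/-- a label graph on `[-m, m]` of degree `r` and slope `ε (r - 1)` -/
def P (ε : ℤ) (r : ℕ) (m : ℤ) : Prop := LG (I m) r (ε * ((r : ℤ) - 1))

/-- the set `{q x + j : (x, j) ∈ D}` -/
def fibX (q : ℤ) (D : Finset (ℤ × ℤ)) : Finset ℤ := D.image fun p => q * p.1 + p.2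

theorem mem_fibX {q z : ℤ} {D : Finset (ℤ × ℤ)} :
    z ∈ fibX q D ↔ ∃ x j, (x, j) ∈ D ∧ q * x + j = z := by
  unfold fibX
  rw [mem_image]
  constructor
  · rintro ⟨p, hp, e⟩
    exact ⟨p.1, p.2, hp, e⟩
  · rintro ⟨x, j, h, e⟩
    exact ⟨(x, j), h, e⟩

/-- a 2-factor in the graph `N` on `X` (oriented: `sc` successor, `pd` predecessor) whose vertices carry
types `t x` modulo 6 which increase by one along the orientation; the central symmetry preserves the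
orientation and adds 3 to the type. -/
structure Fac (X : Finset ℤ) (N : ℤ → Finset ℤ) (t : ℤ → ℕ) (sc pd : ℤ → ℤ) : Prop where
  sc_mem : ∀ x ∈ X, sc x ∈ N x
  pd_mem : ∀ x ∈ X, pd x ∈ N x
  pd_sc : ∀ x ∈ X, pd (sc x) = x
  sc_pd : ∀ x ∈ X, sc (pd x) = x
  t_sc : ∀ x ∈ X, t (sc x) % 6 = (t x + 1) % 6
  t_neg : ∀ x ∈ X, t (-x) % 6 = (t x + 3) % 6
  sc_neg : ∀ x ∈ X, sc (-x) = -sc x
  pd_neg : ∀ x ∈ X, pd (-x) = -pd x

/-- `X = -X` carries a centrally symmetric graph of degree `r`, slope `r - 1`, without edges `x — -x`,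
with a 2-factor as above -/
def EF (X : Finset ℤ) (r : ℕ) : Prop :=
  (∀ x ∈ X, -x ∈ X) ∧ ∃ (N : ℤ → Finset ℤ) (t : ℤ → ℕ) (sc pd : ℤ → ℤ), IsLG N X r ((r : ℤ) - 1) ∧
    (∀ x, -x ∉ N x) ∧ (∀ x y, y ∈ N x → -y ∈ N (-x)) ∧ Fac X N t sc pd

theorem LG.union' {X₁ X₂ : Finset ℤ} {r : ℕ} {s : ℤ} (h1 : LG X₁ r s) (h2 : LG X₂ r s)
    (hd : Disjoint X₁ X₂) : LG (X₁ ∪ X₂) r s := by
  obtain ⟨N₁, h1⟩ := h1
  obtain ⟨N₂, h2⟩ := h2
  exact ⟨_, h1.union h2 hd⟩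

/-- a symmetric graph without edges `x — -x` gives both signs -/
theorem LGS.sgn {X : Finset ℤ} {r : ℕ} {s ε : ℤ} (hε : ε = 1 ∨ ε = -1) (h : LGS X r s) :
    LG X r (ε * s) := by
  rcases hε with rfl | rfl
  · rw [one_mul]
    exact h.lg0.lg
  · rw [neg_one_mul]
    exact h.neg.lg0.lg

end Pool.Agent.Helper74.Gp
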