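import Pool.Agent.Helper74.Gp.Defs
import Pool.Agent.Helper74.Hc.Cert

/-! GP-12. Checking tables of liftable graphs. Row `a` (`0 ≤ a ≤ hi`) of the table is empty for `a < lo`
and `[t, sc, pd, o₁, …]` for `lo ≤ a`: type, successor, predecessor, other neighbours of `a`.
The data of `-a` are the negatives, with type `t + 3`.

PLAN: as `isLG_of_chk` in `Pool/Agent/Helper74/Hc/Cert.lean` (complete proof of the analogous statement for
`chk`). (12a): `N x = (nbF T x).toFinset`; for `x` with `lo ≤ |x| ≤ hi` all properties are in `chkF`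
(`a = x.natAbs`, `x = a` or `x = -a`); otherwise `nbF T x = []`. Central symmetry: `nbF T (-x)` is the list
`nbF T x` with all signs changed (`x ≠ 0` as rows with `a < lo`, `1 ≤ lo`, are empty).
(12b): `isLG_of_chk` and `chk0` (see `lg0_of_chk`); central symmetry as above, and for `x = 0` by symmetry of
the graph: `y ∈ N 0 → 0 ∈ N y → 0 ∈ N (-y) → -y ∈ N 0`. -/

namespace Pool.Agent.Helper74.Gp

open Finset Pool.Agent.Helper74.Hc

def sgF (x y : ℤ) : ℤ := if x < 0 then -y else y

/-- the neighbours of `x` -/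
def nbF (T : List (List ℤ)) (x : ℤ) : List ℤ := ((T.getD x.natAbs []).drop 1).map (sgF x)

def tF (T : List (List ℤ)) (x : ℤ) : ℕ :=
  if x < 0 then ((T.getD x.natAbs []).getD 0 0).toNat + 3 else ((T.getD x.natAbs []).getD 0 0).toNat

def scF (T : List (List ℤ)) (x : ℤ) : ℤ := sgF x ((T.getD x.natAbs []).getD 1 0)

def pdF (T : List (List ℤ)) (x : ℤ) : ℤ := sgF x ((T.getD x.natAbs []).getD 2 0)

/-- the check -/
def chkF (T : List (List ℤ)) (r lo : ℕ) : Bool :=
  (List.range T.length).all fun a =>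
    if a < lo then decide (T.getD a [] = []) else
    decide (3 ≤ (T.getD a []).length) && [(a : ℤ), -(a : ℤ)].all fun x =>
    decide ((nbF T x).Nodup) && decide ((nbF T x).length = r) &&
      decide ((nbF T x).sum = ((r : ℤ) - 1) * x) &&
      ((nbF T x).all fun y => decide (y ≠ x) && decide (y ≠ -x) && decide (x ∈ nbF T y)) &&
      decide (pdF T (scF T x) = x) && decide (scF T (pdF T x) = x) &&
      decide (tF T (scF T x) % 6 = (tF T x + 1) % 6)

private theorem fc_sg {x : ℤ} (hx : x ≠ 0) (y : ℤ) : sgF (-x) y = -sgF x y := by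
  unfold sgF
  rcases lt_or_gt_of_ne hx with h | h
  · rw [if_neg (by omega), if_pos h, neg_neg]
  · rw [if_pos (by omega), if_neg (by omega)]

private theorem fc_row {T : List (List ℤ)} {r lo : ℕ} (h : chkF T r lo = true) {x : ℤ}
    (hl : lo ≤ x.natAbs) (hx : x.natAbs < T.length) :
    3 ≤ (T.getD x.natAbs []).length ∧ (nbF T x).Nodup ∧ (nbF T x).length = r ∧
      (nbF T x).sum = ((r : ℤ) - 1) * x ∧
      (∀ y ∈ nbF T x, y ≠ x ∧ y ≠ -x ∧ x ∈ nbF T y) ∧
      pdF T (scF T x) = x ∧ scF T (pdF T x) = x ∧ tF T (scF T x) % 6 = (tF T x + 1) % 6 := by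
  unfold chkF at h
  rw [List.all_eq_true] at h
  have h1 := h x.natAbs (List.mem_range.2 hx)
  rw [if_neg (by omega), Bool.and_eq_true, List.all_eq_true] at h1
  have h2 := h1.2 x (by
    rcases Int.natAbs_eq x with e | e
    · rw [← e]; simp
    · simp only [List.mem_cons, List.not_mem_nil, or_false]
      right; exact e)
  have h3 := h1.1
  rw [decide_eq_true_eq] at h3
  simp only [Bool.and_eq_true, decide_eq_true_eq, List.all_eq_true] at h2
  obtain ⟨⟨⟨⟨⟨⟨a1, a2⟩, a3⟩, a4⟩, a5⟩, a6⟩, a7⟩ := h2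
  exact ⟨h3, a1, a2, a3, fun y hy => ⟨(a4 y hy).1.1, (a4 y hy).1.2, (a4 y hy).2⟩, a5, a6, a7⟩

private theorem fc_out {T : List (List ℤ)} {r lo : ℕ} (h : chkF T r lo = true) {x : ℤ}
    (hx : x.natAbs < lo ∨ T.length ≤ x.natAbs) : nbF T x = [] := by
  unfold nbF
  by_cases hT : T.length ≤ x.natAbs
  · rw [List.getD_eq_default _ _ hT]
    rfl
  · have hlo : x.natAbs < lo := by omega
    unfold chkF at h
    rw [List.all_eq_true] at h
    have h1 := h x.natAbs (List.mem_range.2 (by omega))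
    rw [if_pos hlo, decide_eq_true_eq] at h1
    rw [h1]
    rfl

private theorem fc_in {T : List (List ℤ)} {r lo : ℕ} (h : chkF T r lo = true) {x y : ℤ}
    (hy : y ∈ nbF T x) : lo ≤ x.natAbs ∧ x.natAbs < T.length := by
  by_contra hc
  have h1 : x.natAbs < lo ∨ T.length ≤ x.natAbs := by omega
  rw [fc_out h h1] at hy
  simp at hy

private theorem fc_drop (l : List ℤ) (hl : 3 ≤ l.length) : l.getD 1 0 ∈ l.drop 1 ∧
    l.getD 2 0 ∈ l.drop 1 := by
  match l, hl with
  | [], h => simp at h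
  | [a], h => simp at h
  | [a, b], h => simp at h
  | a :: b :: c :: l, _ => simp

/-- GP-12a -/
theorem ef_of_chk {T : List (List ℤ)} {r lo hi : ℕ} (hlo : 1 ≤ lo) (hT : T.length = hi + 1)
    (h : chkF T r lo = true) : EF (SI lo hi) r := by
  have hin : ∀ x : ℤ, x ∈ SI lo hi ↔ lo ≤ x.natAbs ∧ x.natAbs < T.length := by
    intro x; rw [mem_SI]; omega
  refine ⟨?_, fun x => (nbF T x).toFinset, tF T, scF T, pdF T, ⟨⟨?_, ?_⟩, ?_, ?_, ?_⟩, ?_, ?_, ?_⟩
  · intro x hx
    rw [mem_SI] at hx ⊢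
    omega
  · intro x y hy
    rw [List.mem_toFinset] at hy ⊢
    obtain ⟨h1, h2⟩ := fc_in h hy
    exact ((fc_row h h1 h2).2.2.2.2.1 y hy).2.2
  · intro x hy
    rw [List.mem_toFinset] at hy
    obtain ⟨h1, h2⟩ := fc_in h hy
    exact ((fc_row h h1 h2).2.2.2.2.1 x hy).1 rfl
  · intro x hx
    rw [hin] at hx
    show (nbF T x).toFinset = ∅
    rw [fc_out h (by omega)]
    rfl
  · intro x hx
    rw [hin] at hx
    have h1 := fc_row h hx.1 hx.2
    show ((nbF T x).toFinset).card = r
    rw [List.toFinset_card_of_nodup h1.2.1, h1.2.2.1]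
  · intro x hx
    rw [hin] at hx
    have h1 := fc_row h hx.1 hx.2
    show ∑ y ∈ (nbF T x).toFinset, y = ((r : ℤ) - 1) * x
    rw [List.sum_toFinset _ h1.2.1, List.map_id', h1.2.2.2.1]
  · intro x hx
    rw [List.mem_toFinset] at hx
    obtain ⟨h1, h2⟩ := fc_in h hx
    exact ((fc_row h h1 h2).2.2.2.2.1 (-x) hx).2.1 rfl
  · intro x y hy
    rw [List.mem_toFinset] at hy ⊢
    obtain ⟨h1, h2⟩ := fc_in h hy
    have hx0 : x ≠ 0 := by
      rintro rfl
      simp at h1
      omega
    unfold nbF at hy ⊢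
    rw [List.mem_map] at hy ⊢
    obtain ⟨z, hz, rfl⟩ := hy
    refine ⟨z, ?_, fc_sg hx0 z⟩
    rw [Int.natAbs_neg]
    exact hz
  · have hne : ∀ x ∈ SI (lo : ℤ) (hi : ℤ), x ≠ 0 := by
      intro x hx
      rw [mem_SI] at hx
      omega
    refine ⟨?_, ?_, ?_, ?_, ?_, ?_, ?_, ?_⟩
    · intro x hx
      rw [hin] at hx
      rw [List.mem_toFinset]
      exact List.mem_map_of_mem (fc_drop _ (fc_row h hx.1 hx.2).1).1
    · intro x hx
      rw [hin] at hx
      rw [List.mem_toFinset]
      exact List.mem_map_of_mem (fc_drop _ (fc_row h hx.1 hx.2).1).2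
    · intro x hx
      rw [hin] at hx
      exact (fc_row h hx.1 hx.2).2.2.2.2.2.1
    · intro x hx
      rw [hin] at hx
      exact (fc_row h hx.1 hx.2).2.2.2.2.2.2.1
    · intro x hx
      rw [hin] at hx
      exact (fc_row h hx.1 hx.2).2.2.2.2.2.2.2
    · intro x hx
      have h0 := hne x hx
      unfold tF
      rw [Int.natAbs_neg]
      rcases lt_or_gt_of_ne h0 with h1 | h1
      · rw [if_neg (by omega), if_pos h1]
        omega
      · rw [if_pos (by omega), if_neg (by omega)]
    · intro x hx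
      unfold scF
      rw [Int.natAbs_neg]
      exact fc_sg (hne x hx) _
    · intro x hx
      unfold pdF
      rw [Int.natAbs_neg]
      exact fc_sg (hne x hx) _

private theorem fc_nbneg {T : List (List ℤ)} {x y : ℤ} (hx : x ≠ 0) (hy : y ∈ nb T x) :
    -y ∈ nb T (-x) := by
  unfold nb at hy ⊢
  rw [List.mem_map] at hy ⊢
  obtain ⟨z, hz, rfl⟩ := hy
  refine ⟨z, ?_, ?_⟩
  · rw [Int.natAbs_neg]
    exact hz
  · rcases lt_or_gt_of_ne hx with h | h
    · rw [if_neg (by omega), if_pos h, neg_neg]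
    · rw [if_pos (by omega), if_neg (by omega)]

/-- GP-12b -/
theorem lgs_of_chk {T : List (List ℤ)} {r : ℕ} {s m : ℤ} (hT : (T.length : ℤ) = m + 1)
    (h : chk T r s = true) (h0 : chk0 T = true) : LGS (I m) r s := by
  have hlg := isLG_of_chk hT h
  refine ⟨_, hlg, ?_, ?_⟩
  · intro x hx
    rw [List.mem_toFinset] at hx
    by_cases hl : x.natAbs < T.length
    · unfold chk0 at h0
      rw [List.all_eq_true] at h0
      have h1 := h0 x.natAbs (List.mem_range.2 hl)
      simp only [Bool.and_eq_true, decide_eq_true_eq] at h1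
      rcases Int.natAbs_eq x with e | e
      · rw [← e] at h1; exact h1.1 hx
      · have e2 : -(x.natAbs : ℤ) = x := e.symm
        rw [e2] at h1
        have e3 : (x.natAbs : ℤ) = -x := by omega
        rw [e3] at h1
        exact h1.2 hx
    · rw [nb_out (by omega)] at hx
      simp at hx
  · intro x y hy
    have hy' := hy
    rw [List.mem_toFinset] at hy ⊢
    by_cases hx : x = 0
    · subst hx
      have h1 := hlg.gr.symm 0 y hy'
      have hy0 : y ≠ 0 := by
        rintro rfl
        exact hlg.gr.irr 0 hy'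
      rw [List.mem_toFinset] at h1
      have h2 := fc_nbneg hy0 h1
      have h3 := hlg.gr.symm (-y) (-0) (List.mem_toFinset.2 h2)
      exact List.mem_toFinset.1 h3
    · exact fc_nbneg hx hy

end Pool.Agent.Helper74.Gp
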