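import Pool.Agent.Helper74.Gp.FCert

/-! Tables of liftable graphs. -/

namespace Pool.Agent.Helper74.Gp

open Finset Pool.Agent.Helper74.Hc

def tef4_15 : List (List ℤ) :=
  [[], [4, 6, -5, -10, 12], [5, 5, 3, -9, 7], [4, 2, 8, -6, 5], [5, -8, -7, 13, 14], [0, -1, 2, 3, 11], [5, 11, 1, -3, 9], [1, -4, 11, 2, 12], [3, 3, -4, 10, 15], [5, 10, 13, -2, 6], [0, 14, 9, -1, 8], [0, 7, 6, 5, 15], [3, 13, 15, 1, 7], [4, 9, 12, 4, 14], [1, 15, 10, 4, 13], [2, 12, 14, 8, 11]]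

theorem ef4_15 : EF (SI 1 15) 4 :=
  ef_of_chk (T := tef4_15) (lo := 1) (hi := 15) (by decide) (by decide +kernel) (by decide +kernel)

def tef4_24 : List (List ℤ) :=
  [[], [4, 10, -7, -2, 2], [2, -5, 11, -1, 1], [1, -8, 4, -7, 20], [0, 3, -13, 8, 14], [0, -14, -2, 10, 21], [1, 13, 9, -19, 15], [0, -1, 17, -3, 8], [5, 16, -3, 4, 7], [0, 6, 10, -11, 22], [5, 9, 1, 5, 15], [1, 2, 16, -9, 24], [3, 15, -18, 16, 23], [2, -4, 6, 17, 20], [4, 22, -5, 4, 21], [4, 17, 12, 6, 10], [0, 11, 8, 12, 17], [5, 7, 15, 13, 16], [5, -12, 19, 23, 24], [4, 18, 23, -6, 22], [2, 23, 21, 3, 13], [1, 20, 24, 5, 14], [5, 24, 14, 9, 19], [3, 19, 20, 12, 18], [0, 21, 22, 11, 18]]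

theorem ef4_24 : EF (SI 1 24) 4 :=
  ef_of_chk (T := tef4_24) (lo := 1) (hi := 24) (by decide) (by decide +kernel) (by decide +kernel)

def tef4_27 : List (List ℤ) :=
  [[], [2, 7, -14, 4, 6], [5, -6, -9, 5, 16], [3, 5, 4, -10, 10], [2, 3, 20, -12, 1], [4, 17, 3, -7, 2], [3, 11, -2, 1, 8], [3, 12, 1, -5, 13], [0, 20, 17, -19, 6], [1, -2, 24, -18, 23], [3, 14, 16, -3, 3], [4, -21, 6, 22, 26], [4, 18, 7, -4, 15], [4, 25, -15, 7, 22], [4, -1, 10, 16, 17], [0, -13, 27, 12, 19], [2, 10, 22, 2, 14], [5, 8, 5, 14, 24], [5, 26, 12, -9, 25], [4, 27, 23, -8, 15], [1, 4, 8, 23, 25], [2, 23, -11, 24, 27], [1, 16, 26, 11, 13], [3, 19, 21, 9, 20], [0, 9, 25, 17, 21], [5, 24, 13, 18, 20], [0, 22, 18, 11, 27], [5, 15, 19, 21, 26]]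

theorem ef4_27 : EF (SI 1 27) 4 :=
  ef_of_chk (T := tef4_27) (lo := 1) (hi := 27) (by decide) (by decide +kernel) (by decide +kernel)

def tef4_25 : List (List ℤ) :=
  [[], [], [3, 14, -15, -5, 12], [3, -13, 12, -4, 14], [3, 23, -17, -3, 9], [1, -6, 10, -2, 13], [5, 20, -5, -7, 10], [4, 15, -9, -6, 21], [5, 10, -19, 9, 24], [0, -7, 22, 4, 8], [0, 5, 8, 6, 11], [2, 18, 21, -16, 10], [2, 3, 13, 2, 18], [1, 12, -3, 5, 25], [4, 17, 2, 3, 20], [5, -2, 7, 18, 22], [4, 24, 18, -11, 17], [5, -4, 14, 16, 25], [3, 16, 11, 12, 15], [1, -8, 20, 22, 23], [0, 19, 6, 14, 21], [1, 11, 25, 7, 20], [5, 9, 23, 15, 19], [4, 22, 4, 19, 24], [5, 25, 16, 8, 23], [0, 21, 24, 13, 17]]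

theorem ef4_25 : EF (SI 2 25) 4 :=
  ef_of_chk (T := tef4_25) (lo := 2) (hi := 25) (by decide) (by decide +kernel) (by decide +kernel)

def tef6_24 : List (List ℤ) :=
  [[], [4, -4, -5, -7, 2, 6, 13], [5, 9, 3, -6, -5, 1, 8], [4, 2, -17, -5, 6, 10, 19], [2, -12, -1, 6, 7, 8, 12], [0, -1, 13, -3, -2, 8, 10], [0, 14, 10, -2, 1, 3, 4], [2, 18, 8, -14, -1, 4, 20], [1, 7, 9, 2, 4, 5, 13], [0, 8, 2, -16, 10, 18, 23], [5, 6, 15, 3, 5, 9, 12], [1, 16, 12, -15, 13, 14, 15], [0, 11, -4, 4, 10, 17, 22], [5, 5, 19, 1, 8, 11, 21], [1, 21, 6, -7, 11, 19, 20], [4, 10, 24, -11, 11, 20, 21], [2, 22, 11, -9, 17, 18, 21], [0, -3, 20, 12, 16, 18, 22], [3, 19, 7, 9, 16, 17, 22], [4, 13, 18, 3, 14, 23, 24], [5, 17, 23, 7, 14, 15, 24], [2, 24, 14, 13, 15, 16, 23], [3, 23, 16, 12, 17, 18, 24], [4, 20, 22, 9, 19, 21, 24], [3, 15, 21, 19, 20, 22, 23]]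

theorem ef6_24 : EF (SI 1 24) 6 :=
  ef_of_chk (T := tef6_24) (lo := 1) (hi := 24) (by decide) (by decide +kernel) (by decide +kernel)

end Pool.Agent.Helper74.Gp
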