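import Pool.Agent.Helper74.Gp.Defs

/-! GP-1. Fibre lemma. Vertices `(x, j) ∈ D`, label `q x + j`. Vertical graphs `V x` on the column
`C x = {j : (x, j) ∈ D}` (degree `a`, slope `ε (a - 1)`), horizontal graphs `H j` on the row
`R j = {x : (x, j) ∈ D}` (degree `b`, slope `ε (b - 1)`). Neighbours of `(x, j)`:
`(x', ε j)` for `x' ∈ H j x` and `(ε x, j')` for `j' ∈ V x j`.

PLAN: the template is `Pool/Agent/Helper74/Hc/ExProd.lean` (theorem `prod_gen`, complete proof of the case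
`D = A ×ˢ J` with `V`, `H` constant); copy and adapt. (1) for `(x, j) ∈ D`:
`fibN q ε D V H (q x + j) = (H j x).image .. ∪ (V x j).image ..` by `hinj`. (2) symmetry: `(x, j) — (x', ε j)`:
`(x', ε j) ∈ D` since `x' ∈ R j` and `hD2`, and `x ∈ H (ε j) x' = H j x'` by `hHs`, `ε (ε j) = j`;
vertical edges similarly with `hVs`, `hD1`. (3) no loop: irreflexivity. (4) the two parts are disjoint:
`(x', ε j) = (ε x, j')` gives `x' = ε x`: for `ε = 1` excluded by irreflexivity, for `ε = -1` by `hl`.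
(5) sum: `q Σ x' + b ε j + a ε q x + Σ j' = q ε (b-1) x + b ε j + a ε q x + ε (a-1) j = ε (a+b-1)(q x + j)`. -/

namespace Pool.Agent.Helper74.Gp

open Finset Pool.Agent.Helper74.Hc

/-- neighbourhoods in the graph of pairs -/
def fibN (q ε : ℤ) (D : Finset (ℤ × ℤ)) (V H : ℤ → ℤ → Finset ℤ) (z : ℤ) : Finset ℤ :=
  D.biUnion fun p =>
    if q * p.1 + p.2 = z then
      (H p.2 p.1).image (fun x' => q * x' + ε * p.2) ∪ (V p.1 p.2).image (fun j' => ε * (q * p.1) + j')
    else ∅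

private theorem fibN_eq {q ε : ℤ} {D : Finset (ℤ × ℤ)} {V H : ℤ → ℤ → Finset ℤ}
    (hinj : ∀ p ∈ D, ∀ p' ∈ D, q * p.1 + p.2 = q * p'.1 + p'.2 → p = p')
    {x j : ℤ} (hx : (x, j) ∈ D) :
    fibN q ε D V H (q * x + j) =
      (H j x).image (fun x' => q * x' + ε * j) ∪ (V x j).image (fun j' => ε * (q * x) + j') := by
  ext y
  unfold fibN
  rw [mem_biUnion]
  constructor
  · rintro ⟨p, hp, hy⟩
    by_cases h : q * p.1 + p.2 = q * x + j
    · rw [if_pos h] at hy
      have e := hinj p hp (x, j) hx h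
      rw [e] at hy
      exact hy
    · rw [if_neg h] at hy
      simp at hy
  · intro hy
    refine ⟨(x, j), hx, ?_⟩
    rw [if_pos rfl]
    exact hy

/-- GP-1 -/
theorem fib {q ε : ℤ} (hq : q ≠ 0) (hε : ε = 1 ∨ ε = -1) {D : Finset (ℤ × ℤ)}
    {V H : ℤ → ℤ → Finset ℤ} {C R : ℤ → Finset ℤ} {a b : ℕ}
    (hC : ∀ x j, j ∈ C x ↔ (x, j) ∈ D) (hR : ∀ j x, x ∈ R j ↔ (x, j) ∈ D)
    (hinj : ∀ p ∈ D, ∀ p' ∈ D, q * p.1 + p.2 = q * p'.1 + p'.2 → p = p')
    (hD1 : ∀ x j, (x, j) ∈ D → (-x, j) ∈ D) (hD2 : ∀ x j, (x, j) ∈ D → (x, -j) ∈ D)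
    (hV : ∀ x, IsLG (V x) (C x) a (ε * ((a : ℤ) - 1)))
    (hH : ∀ j, IsLG (H j) (R j) b (ε * ((b : ℤ) - 1)))
    (hVs : ∀ x, V (-x) = V x) (hHs : ∀ j, H (-j) = H j) (hl : ∀ j x, -x ∉ H j x) :
    IsLG (fibN q ε D V H) (fibX q D) (a + b) (ε * ((a : ℤ) + b - 1)) := by
  have hεε : ε * ε = 1 := by rcases hε with rfl | rfl <;> norm_num
  have hD1' : ∀ x j, (x, j) ∈ D → (ε * x, j) ∈ D := by
    intro x j h
    rcases hε with rfl | rfl
    · rwa [one_mul]
    · rw [neg_one_mul]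
      exact hD1 x j h
  have hD2' : ∀ x j, (x, j) ∈ D → (x, ε * j) ∈ D := by
    intro x j h
    rcases hε with rfl | rfl
    · rwa [one_mul]
    · rw [neg_one_mul]
      exact hD2 x j h
  have hVs' : ∀ x, V (ε * x) = V x := by
    intro x
    rcases hε with rfl | rfl
    · rw [one_mul]
    · rw [neg_one_mul]
      exact hVs x
  have hHs' : ∀ x, H (ε * x) = H x := by
    intro x
    rcases hε with rfl | rfl
    · rw [one_mul]
    · rw [neg_one_mul]
      exact hHs x
  have hl' : ∀ j x, ε * x ∉ H j x := by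
    intro j x
    rcases hε with rfl | rfl
    · rw [one_mul]
      exact (hH j).gr.irr x
    · rw [neg_one_mul]
      exact hl j x
  have hinj' : ∀ {x j x' j' : ℤ}, (x, j) ∈ D → (x', j') ∈ D → q * x + j = q * x' + j' →
      x = x' ∧ j = j' := by
    intro x j x' j' h h' e
    have := hinj (x, j) h (x', j') h' e
    exact Prod.mk.injEq .. ▸ this
  have hHm : ∀ {x j x' : ℤ}, x' ∈ H j x → (x', j) ∈ D := by
    intro x j x' h
    exact (hR j x').1 ((hH j).sub h).2
  have hVm : ∀ {x j j' : ℤ}, j' ∈ V x j → (x, j') ∈ D := by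
    intro x j j' h
    exact (hC x j').1 ((hV x).sub h).2
  have hnb : ∀ {x j y : ℤ}, (x, j) ∈ D → y ∈ fibN q ε D V H (q * x + j) →
      (∃ x' ∈ H j x, y = q * x' + ε * j) ∨ ∃ j' ∈ V x j, y = q * (ε * x) + j' := by
    intro x j y hx hy
    rw [fibN_eq hinj hx, mem_union, mem_image, mem_image] at hy
    rcases hy with ⟨x', h3, h4⟩ | ⟨j', h3, h4⟩
    · exact Or.inl ⟨x', h3, h4.symm⟩
    · exact Or.inr ⟨j', h3, by rw [← h4]; ring⟩
  have hout : ∀ z, z ∉ fibX q D → fibN q ε D V H z = ∅ := by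
    intro z hz
    unfold fibN
    rw [Finset.eq_empty_iff_forall_notMem]
    intro y hy
    rw [mem_biUnion] at hy
    obtain ⟨p, hp, hy⟩ := hy
    by_cases h : q * p.1 + p.2 = z
    · exact hz (mem_fibX.2 ⟨p.1, p.2, hp, h⟩)
    · rw [if_neg h] at hy
      simp at hy
  have hdisj : ∀ {x j : ℤ}, (x, j) ∈ D →
      Disjoint ((H j x).image (fun x' => q * x' + ε * j))
        ((V x j).image (fun j' => ε * (q * x) + j')) := by
    intro x j hx
    rw [Finset.disjoint_left]
    intro y hy1 hy2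
    rw [mem_image] at hy1 hy2
    obtain ⟨x', h3, rfl⟩ := hy1
    obtain ⟨j', h4, h5⟩ := hy2
    have h6 : q * (ε * x) + j' = q * x' + ε * j := by rw [← h5]; ring
    have h7 := hinj' (hD1' _ _ (hVm h4)) (hD2' _ _ (hHm h3)) h6
    exact hl' j x (h7.1 ▸ h3)
  refine ⟨⟨?_, ?_⟩, hout, ?_, ?_⟩
  · intro z y hy
    by_cases hz : z ∈ fibX q D
    · obtain ⟨x, j, hx, rfl⟩ := mem_fibX.1 hz
      rcases hnb hx hy with ⟨x', h3, rfl⟩ | ⟨j', h3, rfl⟩
      · rw [fibN_eq hinj (hD2' _ _ (hHm h3)), mem_union]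
        left
        rw [mem_image]
        refine ⟨x, ?_, by rw [← mul_assoc, hεε, one_mul]⟩
        rw [hHs']
        exact (hH j).gr.symm _ _ h3
      · rw [fibN_eq hinj (hD1' _ _ (hVm h3)), mem_union]
        right
        rw [mem_image]
        refine ⟨j, ?_, ?_⟩
        · rw [hVs']
          exact (hV x).gr.symm _ _ h3
        · have : ε * (q * (ε * x)) = (ε * ε) * (q * x) := by ring
          rw [this, hεε, one_mul]
    · rw [hout z hz] at hy
      simp at hy
  · intro z hy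
    by_cases hz : z ∈ fibX q D
    · obtain ⟨x, j, hx, rfl⟩ := mem_fibX.1 hz
      rcases hnb hx hy with ⟨x', h3, h4⟩ | ⟨j', h3, h4⟩
      · have := (hinj' hx (hD2' _ _ (hHm h3)) h4).1
        exact (hH j).gr.irr x (this ▸ h3)
      · have := (hinj' hx (hD1' _ _ (hVm h3)) h4).2
        exact (hV x).gr.irr j (this ▸ h3)
    · rw [hout z hz] at hy
      simp at hy
  · intro z hz
    obtain ⟨x, j, hx, rfl⟩ := mem_fibX.1 hz
    rw [fibN_eq hinj hx, Finset.card_union_of_disjoint (hdisj hx), Finset.card_image_of_injective,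
      Finset.card_image_of_injective, (hH j).card x ((hR j x).2 hx), (hV x).card j ((hC x j).2 hx),
      add_comm]
    · intro c d hab; simpa using hab
    · intro c d hab
      have : q * c = q * d := by simpa using hab
      exact mul_left_cancel₀ hq this
  · intro z hz
    obtain ⟨x, j, hx, rfl⟩ := mem_fibX.1 hz
    rw [fibN_eq hinj hx, Finset.sum_union (hdisj hx), Finset.sum_image, Finset.sum_image,
      Finset.sum_add_distrib, Finset.sum_add_distrib, ← Finset.mul_sum,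
      (hH j).sum x ((hR j x).2 hx), (hV x).sum j ((hC x j).2 hx),
      Finset.sum_const, Finset.sum_const, (hH j).card x ((hR j x).2 hx),
      (hV x).card j ((hC x j).2 hx), nsmul_eq_mul, nsmul_eq_mul]
    · ring
    · intro c _ d _ hab; simpa using hab
    · intro c _ d _ hab
      have : q * c = q * d := by simpa using hab
      exact mul_left_cancel₀ hq this

end Pool.Agent.Helper74.Gp
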