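import Pool.Agent.Helper74.Gp.FCert

/-! Tables of cores. -/

namespace Pool.Agent.Helper74.Gp

open Finset Pool.Agent.Helper74.Hc

def tk4_13 : List (List ℤ) :=
  [[-7, -6, 6, 7], [-10, -3, 5, 11], [-4, -2, 5, 7], [-4, -1, 6, 8], [-3, -2, 5, 12], [1, 2, 4, 8], [0, 3, 7, 8], [0, 2, 6, 13], [3, 5, 6, 10], [-9, 11, 12, 13], [-1, 8, 11, 12], [1, 9, 10, 13], [4, 9, 10, 13], [7, 9, 11, 12]]

theorem k4_13 : LG (I 13) 4 (3) :=
  lg_of_chk (T := tk4_13) (by decide +kernel) (by decide +kernel)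

def tk4_15 : List (List ℤ) :=
  [[-8, -4, 4, 8], [-11, -1, 7, 8], [-9, -3, 5, 13], [-4, -2, 6, 9], [-3, 0, 5, 10], [-5, 2, 4, 14], [-7, 3, 10, 12], [-6, 1, 11, 15], [0, 1, 10, 13], [-2, 3, 12, 14], [4, 6, 8, 12], [-1, 7, 12, 15], [6, 9, 10, 11], [2, 8, 14, 15], [5, 9, 13, 15], [7, 11, 13, 14]]

theorem k4_15 : LG (I 15) 4 (3) :=
  lg_of_chk (T := tk4_15) (by decide +kernel) (by decide +kernel)

def tk4_16 : List (List ℤ) :=
  [[-5, -3, 3, 5], [-9, -3, 5, 10], [-10, -2, 5, 13], [-1, 0, 4, 6], [-8, 3, 8, 9], [0, 1, 2, 12], [-6, 3, 7, 14], [-11, 6, 12, 14], [-4, 4, 9, 15], [-1, 4, 8, 16], [-2, 1, 15, 16], [-7, 12, 13, 15], [5, 7, 11, 13], [2, 11, 12, 14], [6, 7, 13, 16], [8, 10, 11, 16], [9, 10, 14, 15]]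

theorem k4_16 : LG (I 16) 4 (3) :=
  lg_of_chk (T := tk4_16) (by decide +kernel) (by decide +kernel)

def tk4_17 : List (List ℤ) :=
  [[-14, -1, 1, 14], [-3, 0, 2, 4], [-11, 1, 5, 11], [-9, -1, 6, 13], [-8, 1, 7, 12], [-6, 2, 6, 13], [-5, 3, 5, 15], [-7, 4, 8, 16], [-4, 7, 9, 12], [-3, 8, 10, 12], [-10, 9, 14, 17], [-2, 2, 16, 17], [4, 8, 9, 15], [3, 5, 15, 16], [0, 10, 15, 17], [6, 12, 13, 14], [7, 11, 13, 17], [10, 11, 14, 16]]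

theorem k4_17 : LG (I 17) 4 (3) :=
  lg_of_chk (T := tk4_17) (by decide +kernel) (by decide +kernel)

def tk4_18 : List (List ℤ) :=
  [[-14, -5, 5, 14], [-10, -8, 6, 15], [-13, 4, 7, 8], [-9, -4, 10, 12], [-4, -3, 2, 17], [-5, 0, 9, 11], [-7, 1, 11, 13], [-6, 2, 9, 16], [-1, 2, 11, 12], [-3, 5, 7, 18], [-1, 3, 12, 16], [5, 6, 8, 14], [3, 8, 10, 15], [-2, 6, 17, 18], [0, 11, 15, 16], [1, 12, 14, 18], [7, 10, 14, 17], [4, 13, 16, 18], [9, 13, 15, 17]]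

theorem k4_18 : LG (I 18) 4 (3) :=
  lg_of_chk (T := tk4_18) (by decide +kernel) (by decide +kernel)

def tk4_20 : List (List ℤ) :=
  [[-11, -3, 3, 11], [-14, -1, 2, 16], [-3, 1, 3, 5], [-2, 0, 2, 9], [-9, 6, 7, 8], [-5, 2, 6, 12], [-10, 4, 5, 19], [-13, 4, 12, 18], [-15, 4, 17, 18], [-4, 3, 11, 17], [-6, 11, 12, 13], [0, 9, 10, 14], [5, 7, 10, 14], [-7, 10, 16, 20], [-1, 11, 12, 20], [-8, 16, 17, 20], [1, 13, 15, 19], [8, 9, 15, 19], [7, 8, 19, 20], [6, 16, 17, 18], [13, 14, 15, 18]]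

theorem k4_20 : LG (I 20) 4 (3) :=
  lg_of_chk (T := tk4_20) (by decide +kernel) (by decide +kernel)

def tk4_n13 : List (List ℤ) :=
  [[-6, -1, 1, 6], [-7, -4, 0, 8], [-7, -6, -2, 9], [-8, -6, -5, 10], [-12, -4, -1, 5], [-11, -5, -3, 4], [-13, -3, -2, 0], [-11, -7, -2, -1], [-13, -9, -3, 1], [-12, -9, -8, 2], [-12, -11, -10, 3], [-11, -10, -7, -5], [-13, -10, -9, -4], [-13, -12, -8, -6]]

theorem k4_n13 : LG (I 13) 4 (-3) :=
  lg_of_chk (T := tk4_n13) (by decide +kernel) (by decide +kernel)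

def tk4_n15 : List (List ℤ) :=
  [[-7, -5, 5, 7], [-10, -9, 5, 11], [-12, -3, 3, 6], [-6, -3, -2, 2], [-14, -13, 7, 8], [-11, -5, 0, 1], [-9, -8, -3, 2], [-15, -10, 0, 4], [-13, -9, -6, 4], [-12, -8, -6, -1], [-12, -10, -7, -1], [-15, -14, -5, 1], [-15, -10, -9, -2], [-14, -13, -8, -4], [-14, -13, -11, -4], [-15, -12, -11, -7]]

theorem k4_n15 : LG (I 15) 4 (-3) :=
  lg_of_chk (T := tk4_n15) (by decide +kernel) (by decide +kernel)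

def tk4_n16 : List (List ℤ) :=
  [[-9, -5, 5, 9], [-7, -6, -2, 12], [-13, -3, -1, 11], [-9, -4, -2, 6], [-11, -8, -3, 10], [-14, -8, 0, 7], [-12, -8, -1, 3], [-15, -10, -1, 5], [-9, -6, -5, -4], [-16, -8, -3, 0], [-14, -13, -7, 4], [-16, -15, -4, 2], [-16, -15, -6, 1], [-14, -13, -10, -2], [-14, -13, -10, -5], [-15, -12, -11, -7], [-16, -12, -11, -9]]

theorem k4_n16 : LG (I 16) 4 (-3) :=
  lg_of_chk (T := tk4_n16) (by decide +kernel) (by decide +kernel)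

def tk4_n17 : List (List ℤ) :=
  [[-7, -6, 6, 7], [-14, -2, 4, 9], [-8, -6, -1, 9], [-12, -4, -3, 10], [-6, -4, -3, 1], [-11, -10, -5, 11], [-12, -4, -2, 0], [-16, -13, 0, 8], [-15, -14, -2, 7], [-17, -13, 1, 2], [-15, -13, -5, 3], [-17, -16, -5, 5], [-15, -12, -6, -3], [-13, -10, -9, -7], [-17, -16, -8, -1], [-15, -12, -10, -8], [-16, -14, -11, -7], [-17, -14, -11, -9]]

theorem k4_n17 : LG (I 17) 4 (-3) :=
  lg_of_chk (T := tk4_n17) (by decide +kernel) (by decide +kernel)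

def tk4_n18 : List (List ℤ) :=
  [[-15, -8, 8, 15], [-8, -4, -1, 10], [-13, -3, 3, 7], [-6, -3, -2, 2], [-10, -7, -1, 6], [-12, -9, -8, 14], [-12, -7, -3, 4], [-13, -6, -4, 2], [-18, -5, -1, 0], [-17, -16, -5, 11], [-16, -11, -4, 1], [-17, -15, -10, 9], [-13, -12, -6, -5], [-18, -12, -7, -2], [-17, -16, -14, 5], [-18, -16, -11, 0], [-15, -14, -10, -9], [-17, -14, -11, -9], [-18, -15, -13, -8]]

theorem k4_n18 : LG (I 18) 4 (-3) :=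
  lg_of_chk (T := tk4_n18) (by decide +kernel) (by decide +kernel)

def tk4_n20 : List (List ℤ) :=
  [[-10, -4, 4, 10], [-14, -1, 5, 7], [-10, -4, 3, 5], [-9, -8, 2, 6], [-6, -4, -2, 0], [-12, -6, 1, 2], [-12, -5, -4, 3], [-17, -16, 1, 11], [-18, -16, -3, 13], [-20, -19, -3, 15], [-17, -11, -2, 0], [-18, -12, -10, 7], [-14, -11, -6, -5], [-20, -14, -13, 8], [-16, -13, -12, -1], [-19, -18, -17, 9], [-19, -14, -8, -7], [-19, -15, -10, -7], [-20, -15, -11, -8], [-17, -16, -15, -9], [-20, -18, -13, -9]]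

theorem k4_n20 : LG (I 20) 4 (-3) :=
  lg_of_chk (T := tk4_n20) (by decide +kernel) (by decide +kernel)

def tk6_21 : List (List ℤ) :=
  [[-17, -14, -8, 8, 14, 17], [-9, -4, -1, 3, 4, 12], [-7, -4, -2, 3, 5, 15], [-7, -6, 1, 2, 9, 16], [-2, -1, 1, 5, 7, 10], [-5, 2, 4, 6, 8, 10], [-6, -3, 5, 8, 11, 15], [-3, -2, 4, 8, 10, 18], [0, 5, 6, 7, 10, 12], [-11, -1, 3, 15, 19, 20], [4, 5, 7, 8, 12, 14], [-9, 6, 12, 13, 16, 17], [1, 8, 10, 11, 14, 16], [-13, 11, 14, 16, 18, 19], [0, 10, 12, 13, 17, 18], [2, 6, 9, 18, 19, 21], [3, 11, 12, 13, 20, 21], [0, 11, 14, 19, 20, 21], [7, 13, 14, 15, 20, 21], [9, 13, 15, 17, 20, 21], [9, 16, 17, 18, 19, 21], [15, 16, 17, 18, 19, 20]]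

theorem k6_21 : LG (I 21) 6 (5) :=
  lg_of_chk (T := tk6_21) (by decide +kernel) (by decide +kernel)

def tk6_22 : List (List ℤ) :=
  [[-9, -8, -4, 4, 8, 9], [-16, -5, -4, 4, 12, 14], [-8, -7, 3, 5, 6, 11], [-15, -3, 2, 4, 12, 15], [-1, 0, 1, 3, 8, 9], [-7, -1, 2, 6, 11, 14], [-7, 2, 5, 9, 10, 11], [-6, -5, -2, 13, 17, 18], [-2, 0, 4, 9, 10, 19], [0, 4, 6, 8, 11, 16], [-13, 6, 8, 12, 17, 20], [2, 5, 6, 9, 14, 19], [1, 3, 10, 13, 15, 18], [-10, 7, 12, 17, 18, 21], [1, 5, 11, 16, 17, 20], [-3, 3, 12, 20, 21, 22], [-1, 9, 14, 18, 19, 21], [7, 10, 13, 14, 19, 22], [7, 12, 13, 16, 20, 22], [8, 11, 16, 17, 21, 22], [10, 14, 15, 18, 21, 22], [13, 15, 16, 19, 20, 22], [15, 17, 18, 19, 20, 21]]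

theorem k6_22 : LG (I 22) 6 (5) :=
  lg_of_chk (T := tk6_22) (by decide +kernel) (by decide +kernel)

def tk6_23 : List (List ℤ) :=
  [[-12, -9, -1, 1, 9, 12], [-9, -8, -1, 0, 7, 16], [-8, -4, -2, 3, 6, 15], [-9, -3, 2, 6, 7, 12], [-7, -6, -2, 5, 10, 20], [-13, -5, 4, 10, 14, 15], [-4, 2, 3, 7, 10, 12], [-4, 1, 3, 6, 10, 19], [-11, -2, -1, 16, 17, 21], [-3, -1, 0, 14, 17, 18], [4, 5, 6, 7, 13, 15], [-11, -8, 13, 19, 20, 22], [0, 3, 6, 14, 18, 19], [-5, 10, 11, 14, 17, 18], [5, 9, 12, 13, 15, 16], [2, 5, 10, 14, 21, 23], [1, 8, 14, 17, 18, 22], [8, 9, 13, 16, 18, 21], [9, 12, 13, 16, 17, 23], [7, 11, 12, 20, 22, 23], [4, 11, 19, 21, 22, 23], [8, 15, 17, 20, 22, 23], [11, 16, 19, 20, 21, 23], [15, 18, 19, 20, 21, 22]]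

theorem k6_23 : LG (I 23) 6 (5) :=
  lg_of_chk (T := tk6_23) (by decide +kernel) (by decide +kernel)

def tk6_24 : List (List ℤ) :=
  [[-16, -5, -1, 1, 5, 16], [-11, -4, -3, 0, 2, 21], [-6, -2, 1, 3, 4, 10], [-9, -1, 2, 4, 7, 12], [-6, -1, 2, 3, 5, 17], [-13, 0, 4, 7, 10, 17], [-14, -4, -2, 11, 19, 20], [-7, 3, 5, 8, 9, 17], [-18, 7, 9, 10, 13, 19], [-3, 7, 8, 10, 11, 12], [2, 5, 8, 9, 12, 14], [-1, 6, 9, 12, 13, 16], [3, 9, 10, 11, 13, 14], [-5, 8, 11, 12, 19, 20], [-6, 10, 12, 15, 16, 23], [-15, 14, 16, 18, 20, 22], [0, 11, 14, 15, 18, 22], [4, 5, 7, 22, 23, 24], [-8, 15, 16, 21, 22, 24], [6, 8, 13, 21, 23, 24], [6, 13, 15, 21, 22, 23], [1, 18, 19, 20, 23, 24], [15, 16, 17, 18, 20, 24], [14, 17, 19, 20, 21, 24], [17, 18, 19, 21, 22, 23]]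

theorem k6_24 : LG (I 24) 6 (5) :=
  lg_of_chk (T := tk6_24) (by decide +kernel) (by decide +kernel)

def tk6_26 : List (List ℤ) :=
  [[-22, -10, -3, 3, 10, 22], [-7, -3, -2, 2, 5, 10], [-8, -1, 1, 3, 7, 8], [-4, -1, 0, 2, 5, 13], [-11, -6, -4, -3, 21, 23], [-5, 1, 3, 6, 8, 12], [-6, -4, 5, 8, 13, 14], [-7, -1, 2, 12, 14, 15], [-2, 2, 5, 6, 11, 18], [-20, 10, 11, 13, 14, 17], [0, 1, 9, 11, 12, 17], [-4, 8, 9, 10, 12, 20], [5, 7, 10, 11, 13, 14], [3, 6, 9, 12, 17, 18], [6, 7, 9, 12, 17, 19], [-15, 7, 16, 18, 24, 25], [-19, 15, 18, 21, 22, 23], [9, 10, 13, 14, 18, 21], [8, 13, 15, 16, 17, 21], [-16, 14, 22, 24, 25, 26], [-9, 11, 23, 24, 25, 26], [4, 16, 17, 18, 24, 26], [0, 16, 19, 24, 25, 26], [4, 16, 20, 24, 25, 26], [15, 19, 20, 21, 22, 23], [15, 19, 20, 22, 23, 26], [19, 20, 21, 22, 23, 25]]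

theorem k6_26 : LG (I 26) 6 (5) :=
  lg_of_chk (T := tk6_26) (by decide +kernel) (by decide +kernel)

def tk6_28 : List (List ℤ) :=
  [[-11, -8, -7, 7, 8, 11], [-4, -3, -2, 2, 4, 8], [-3, -1, 1, 3, 4, 6], [-7, -2, -1, 2, 11, 12], [-4, -1, 1, 2, 10, 12], [-16, -15, -10, 18, 23, 25], [-21, 2, 8, 12, 14, 15], [-8, -3, 0, 12, 16, 18], [-7, 0, 1, 6, 18, 22], [-20, 10, 11, 13, 14, 17], [-5, 4, 9, 11, 14, 17], [0, 3, 9, 10, 13, 20], [3, 4, 6, 7, 14, 26], [-19, 9, 11, 17, 23, 24], [6, 9, 10, 12, 16, 17], [-5, 6, 16, 17, 19, 22], [-5, 7, 14, 15, 22, 27], [9, 10, 13, 14, 15, 24], [5, 7, 8, 21, 22, 27], [-13, 15, 21, 23, 24, 25], [-9, 11, 21, 24, 25, 28], [-6, 18, 19, 20, 26, 28], [8, 15, 16, 18, 26, 27], [5, 13, 19, 24, 26, 28], [13, 17, 19, 20, 23, 28], [5, 19, 20, 26, 27, 28], [12, 21, 22, 23, 25, 27], [16, 18, 22, 25, 26, 28], [20, 21, 23, 24, 25, 27]]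

theorem k6_28 : LG (I 28) 6 (5) :=
  lg_of_chk (T := tk6_28) (by decide +kernel) (by decide +kernel)

def tk6_n21 : List (List ℤ) :=
  [[-8, -7, -2, 2, 7, 8], [-8, -4, -2, 2, 3, 4], [-5, -3, -2, -1, 0, 1], [-10, -7, -3, -2, 1, 6], [-14, -11, -8, -1, 1, 13], [-19, -16, -5, -2, 7, 10], [-14, -13, -11, -10, 3, 15], [-17, -11, -9, -3, 0, 5], [-15, -12, -8, -4, -1, 0], [-16, -13, -11, -10, -7, 12], [-20, -17, -9, -6, -3, 5], [-18, -11, -9, -7, -6, -4], [-18, -17, -14, -12, -8, 9], [-21, -20, -13, -9, -6, 4], [-18, -16, -14, -12, -6, -4], [-21, -19, -17, -16, -8, 6], [-19, -18, -15, -14, -9, -5], [-21, -20, -15, -12, -10, -7], [-19, -18, -16, -14, -12, -11], [-21, -20, -18, -16, -15, -5], [-21, -20, -19, -17, -13, -10], [-21, -20, -19, -17, -15, -13]]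

theorem k6_n21 : LG (I 21) 6 (-5) :=
  lg_of_chk (T := tk6_n21) (by decide +kernel) (by decide +kernel)

def tk6_n22 : List (List ℤ) :=
  [[-15, -5, -1, 1, 5, 15], [-11, -8, -4, 0, 6, 12], [-14, -10, -6, -3, 5, 18], [-15, -10, -9, -2, 5, 16], [-11, -9, -7, -6, -1, 14], [-16, -8, -6, 0, 2, 3], [-12, -8, -5, -4, -2, 1], [-19, -13, -9, -7, -4, 17], [-11, -9, -8, -6, -5, -1], [-13, -10, -8, -7, -4, -3], [-13, -12, -11, -9, -3, -2], [-21, -11, -10, -8, -4, -1], [-20, -13, -12, -10, -6, 1], [-14, -13, -12, -10, -9, -7], [-22, -20, -17, -13, -2, 4], [-20, -19, -18, -15, -3, 0], [-22, -21, -19, -16, -5, 3], [-22, -21, -18, -17, -14, 7], [-21, -20, -19, -17, -15, 2], [-20, -19, -18, -16, -15, -7], [-22, -19, -18, -15, -14, -12], [-22, -21, -18, -17, -16, -11], [-22, -21, -20, -17, -16, -14]]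

theorem k6_n22 : LG (I 22) 6 (-5) :=
  lg_of_chk (T := tk6_n22) (by decide +kernel) (by decide +kernel)

def tk6_n23 : List (List ℤ) :=
  [[-16, -4, -2, 2, 4, 16], [-13, -7, -5, -4, 11, 13], [-12, -5, -4, -3, 0, 14], [-20, -7, -3, -2, 5, 12], [-7, -6, -4, -2, -1, 0], [-10, -9, -6, -2, -1, 3], [-15, -9, -7, -5, -4, 10], [-14, -7, -6, -4, -3, -1], [-15, -14, -11, -10, -8, 18], [-19, -17, -9, -6, -5, 11], [-16, -15, -12, -8, -5, 6], [-23, -21, -13, -8, 1, 9], [-19, -17, -15, -10, -2, 3], [-21, -17, -16, -11, -1, 1], [-22, -18, -17, -8, -7, 2], [-20, -19, -12, -10, -8, -6], [-22, -19, -16, -13, -10, 0], [-20, -17, -14, -13, -12, -9], [-23, -22, -21, -18, -14, 8], [-22, -21, -16, -15, -12, -9], [-23, -22, -20, -17, -15, -3], [-23, -21, -19, -18, -13, -11], [-23, -20, -19, -18, -16, -14], [-23, -22, -21, -20, -18, -11]]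

theorem k6_n23 : LG (I 23) 6 (-5) :=
  lg_of_chk (T := tk6_n23) (by decide +kernel) (by decide +kernel)

def tk6_n24 : List (List ℤ) :=
  [[-14, -9, -3, 3, 9, 14], [-18, -3, -2, 2, 3, 13], [-11, -6, -2, -1, 1, 9], [-6, -5, -4, -1, 0, 1], [-10, -9, -7, -6, -3, 15], [-11, -10, -7, -6, -3, 12], [-10, -6, -5, -4, -3, -2], [-22, -11, -8, -5, -4, 15], [-17, -11, -10, -9, -7, 14], [-19, -16, -8, -4, 0, 2], [-17, -10, -8, -6, -5, -4], [-17, -16, -8, -7, -5, -2], [-23, -20, -19, -16, 5, 13], [-24, -20, -18, -16, 1, 12], [-21, -20, -19, -18, 0, 8], [-23, -22, -21, -20, 4, 7], [-19, -16, -13, -12, -11, -9], [-21, -18, -17, -11, -10, -8], [-24, -21, -17, -14, -13, -1], [-23, -21, -16, -14, -12, -9], [-24, -22, -15, -14, -13, -12], [-22, -19, -18, -17, -15, -14], [-24, -23, -21, -20, -15, -7], [-24, -23, -22, -19, -15, -12], [-24, -23, -22, -20, -18, -13]]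

theorem k6_n24 : LG (I 24) 6 (-5) :=
  lg_of_chk (T := tk6_n24) (by decide +kernel) (by decide +kernel)

def tk6_n26 : List (List ℤ) :=
  [[-9, -5, -3, 3, 5, 9], [-13, -6, -2, 3, 4, 9], [-14, -10, -1, 3, 4, 8], [-14, -8, 0, 1, 2, 4], [-16, -6, -4, 1, 2, 3], [-16, -13, -9, -5, 0, 18], [-17, -10, -6, -4, -1, 8], [-17, -12, -10, -8, -7, 19], [-23, -15, -7, -3, 2, 6], [-20, -11, -10, -5, 0, 1], [-15, -11, -9, -7, -6, -2], [-20, -19, -18, -10, -9, 21], [-22, -17, -15, -12, -7, 13], [-25, -24, -22, -5, -1, 12], [-20, -16, -15, -14, -3, -2], [-16, -15, -14, -12, -10, -8], [-22, -20, -15, -14, -5, -4], [-23, -19, -18, -12, -7, -6], [-24, -22, -21, -17, -11, 5], [-26, -25, -23, -17, -11, 7], [-26, -24, -16, -14, -11, -9], [-26, -25, -24, -23, -18, 11], [-26, -25, -18, -16, -13, -12], [-26, -24, -21, -19, -17, -8], [-25, -23, -21, -20, -18, -13], [-26, -24, -22, -21,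 -19, -13], [-25, -23, -22, -21, -20, -19]]

theorem k6_n26 : LG (I 26) 6 (-5) :=
  lg_of_chk (T := tk6_n26) (by decide +kernel) (by decide +kernel)

def tk6_n28 : List (List ℤ) :=
  [[-19, -15, -12, 12, 15, 19], [-16, -3, -2, 2, 5, 9], [-17, -5, -1, 1, 4, 8], [-19, -8, -5, -1, 7, 11], [-14, -7, -5, -4, 2, 8], [-10, -7, -4, -3, -2, 1], [-16, -12, -10, -9, -6, 23], [-12, -10, -7, -5, -4, 3], [-22, -13, -8, -3, 2, 4], [-27, -21, -10, -6, 1, 18], [-12, -11, -9, -7, -6, -5], [-28, -20, -15, -10, 3, 15], [-20, -17, -10, -7, -6, 0], [-25, -17, -16, -13, -8, 14], [-24, -20, -18, -17, -4, 13], [-26, -25, -24, -11, 0, 11], [-26, -18, -16, -13, -6, -1], [-23, -21, -14, -13, -12, -2], [-26, -22, -21, -16, -14, 9], [-25, -24, -22, -21, -3, 0], [-22, -21, -20, -14, -12, -11], [-22, -20, -19, -18, -17, -9], [-24, -21, -20, -19, -18, -8], [-28, -27, -25, -24, -17, 6], [-27,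 -23, -22, -19, -15, -14], [-28, -27, -23, -19, -15, -13], [-28, -27, -26, -18, -16, -15], [-28, -26, -25, -24, -23, -9], [-28, -27, -26, -25, -23, -11]]

theorem k6_n28 : LG (I 28) 6 (-5) :=
  lg_of_chk (T := tk6_n28) (by decide +kernel) (by decide +kernel)

def tks15 : List (List ℤ) :=
  [[-7, -3, 3, 7], [-8, -4, 6, 9], [-12, -5, 10, 13], [-6, 0, 5, 10], [-7, -1, 9, 11], [-2, 3, 6, 8], [-3, 1, 5, 15], [-4, 0, 11, 14], [-1, 5, 9, 11], [1, 4, 8, 14], [2, 3, 12, 13], [4, 7, 8, 14], [-2, 10, 13, 15], [2, 10, 12, 15], [7, 9, 11, 15], [6, 12, 13, 14]]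

theorem ks15 : LGS (I 15) 4 3 :=
  lgs_of_chk (T := tks15) (by decide +kernel) (by decide +kernel) (by decide +kernel)

end Pool.Agent.Helper74.Gp
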