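import Mathlib

/-! GP-3. The permutations of `[-u, u]` used in the lifts. `sg` reverses `[1, u]` and `[-u, 0]`;
`ta j = j - sg j` is again a permutation of `[-u, u]` with inverse `ti`.

PLAN: everything by `omega` after unfolding and splitting the ifs; for `ph`, `ps` first replace `t` by
`t % 6` and split in the six cases (e.g. `have : t % 6 = 0 ∨ ... ∨ t % 6 = 5 := by omega`, then
`unfold ph ps; simp only [..]`). Check of the relation `ph (t+1) j + ps t j = j`: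
`t+1 = 0: sg + ta`, `1: ta + sg`, `2: -ti(-j) + ti j = j` (parity cases), `3: -sg(-j) - ta(-j)`,
`4: -ta(-j) - sg(-j)`, `5: ti j - ti(-j)`. -/

namespace Pool.Agent.Helper74.Gp

def sg (u j : ℤ) : ℤ := if 1 ≤ j then u + 1 - j else -u - j

def ta (u j : ℤ) : ℤ := j - sg u j

def ti (u v : ℤ) : ℤ := if (v - u) % 2 = 0 then (v - u) / 2 else (v + u + 1) / 2

/-- the permutation on the edge from type `t` to type `t + 1` -/
def ph (u : ℤ) (t : ℕ) (j : ℤ) : ℤ :=
  if t % 6 = 0 then sg u j else if t % 6 = 1 then ta u j else if t % 6 = 2 then -ti u (-j)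
  else if t % 6 = 3 then -sg u (-j) else if t % 6 = 4 then -ta u (-j) else ti u j

/-- the inverse permutation -/
def ps (u : ℤ) (t : ℕ) (j : ℤ) : ℤ :=
  if t % 6 = 0 then sg u j else if t % 6 = 1 then ti u j else if t % 6 = 2 then -ta u (-j)
  else if t % 6 = 3 then -sg u (-j) else if t % 6 = 4 then -ti u (-j) else ta u j

theorem ph_congr (u : ℤ) {t t' : ℕ} (h : t % 6 = t' % 6) (j : ℤ) : ph u t j = ph u t' j := by
  unfold ph
  rw [h]

theorem ps_congr (u : ℤ) {t t' : ℕ} (h : t % 6 = t' % 6) (j : ℤ) : ps u t j = ps u t' j := by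
  unfold ps
  rw [h]

private theorem ph0 (u j : ℤ) {t : ℕ} (h : t % 6 = 0) : ph u t j = sg u j := by simp [ph, h]
private theorem ph1 (u j : ℤ) {t : ℕ} (h : t % 6 = 1) : ph u t j = ta u j := by simp [ph, h]
private theorem ph2 (u j : ℤ) {t : ℕ} (h : t % 6 = 2) : ph u t j = -ti u (-j) := by simp [ph, h]
private theorem ph3 (u j : ℤ) {t : ℕ} (h : t % 6 = 3) : ph u t j = -sg u (-j) := by simp [ph, h]
private theorem ph4 (u j : ℤ) {t : ℕ} (h : t % 6 = 4) : ph u t j = -ta u (-j) := by simp [ph, h]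
private theorem ph5 (u j : ℤ) {t : ℕ} (h : t % 6 = 5) : ph u t j = ti u j := by simp [ph, h]

private theorem ps0 (u j : ℤ) {t : ℕ} (h : t % 6 = 0) : ps u t j = sg u j := by simp [ps, h]
private theorem ps1 (u j : ℤ) {t : ℕ} (h : t % 6 = 1) : ps u t j = ti u j := by simp [ps, h]
private theorem ps2 (u j : ℤ) {t : ℕ} (h : t % 6 = 2) : ps u t j = -ta u (-j) := by simp [ps, h]
private theorem ps3 (u j : ℤ) {t : ℕ} (h : t % 6 = 3) : ps u t j = -sg u (-j) := by simp [ps, h]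
private theorem ps4 (u j : ℤ) {t : ℕ} (h : t % 6 = 4) : ps u t j = -ti u (-j) := by simp [ps, h]
private theorem ps5 (u j : ℤ) {t : ℕ} (h : t % 6 = 5) : ps u t j = ta u j := by simp [ps, h]

private theorem sgA {u j : ℤ} (h : 1 ≤ j) : sg u j = u + 1 - j := by simp [sg, h]
private theorem sgB {u j : ℤ} (h : ¬ 1 ≤ j) : sg u j = -u - j := by simp [sg, h]

private theorem sg_or (u j : ℤ) : (1 ≤ j ∧ sg u j = u + 1 - j) ∨ (j ≤ 0 ∧ sg u j = -u - j) := by
  by_cases h : 1 ≤ j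
  · exact Or.inl ⟨h, sgA h⟩
  · exact Or.inr ⟨by omega, sgB h⟩

private theorem ta_or (u j : ℤ) :
    (1 ≤ j ∧ ta u j = 2 * j - u - 1) ∨ (j ≤ 0 ∧ ta u j = 2 * j + u) := by
  unfold ta
  rcases sg_or u j with h | h <;> omega

private theorem ti_or (u v : ℤ) :
    (2 * ti u v = v - u) ∨ (2 * ti u v = v + u + 1 ∧ (v - u) % 2 = 1) := by
  unfold ti
  by_cases h : (v - u) % 2 = 0
  · rw [if_pos h]; omega
  · rw [if_neg h]; omega

private theorem six (t : ℕ) : t % 6 = 0 ∨ t % 6 = 1 ∨ t % 6 = 2 ∨ t % 6 = 3 ∨ t % 6 = 4 ∨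
    t % 6 = 5 := by omega

private theorem sg_mem {u j : ℤ} (h1 : -u ≤ j) (h2 : j ≤ u) : -u ≤ sg u j ∧ sg u j ≤ u := by
  rcases sg_or u j with h | h <;> omega

private theorem ta_mem {u j : ℤ} (h1 : -u ≤ j) (h2 : j ≤ u) : -u ≤ ta u j ∧ ta u j ≤ u := by
  rcases ta_or u j with h | h <;> omega

private theorem ti_mem {u j : ℤ} (h1 : -u ≤ j) (h2 : j ≤ u) : -u ≤ ti u j ∧ ti u j ≤ u := by
  rcases ti_or u j with h | h <;> omega

private theorem sg_sg {u j : ℤ} (h1 : -u ≤ j) (h2 : j ≤ u) : sg u (sg u j) = j := by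
  rcases sg_or u j with h | h <;> rcases sg_or u (sg u j) with h' | h' <;> omega

private theorem ti_ta {u j : ℤ} (h1 : -u ≤ j) (h2 : j ≤ u) : ti u (ta u j) = j := by
  rcases ta_or u j with h | h <;> rcases ti_or u (ta u j) with h' | h' <;> omega

private theorem ta_ti {u j : ℤ} (h1 : -u ≤ j) (h2 : j ≤ u) : ta u (ti u j) = j := by
  rcases ti_or u j with h | h <;> rcases ta_or u (ti u j) with h' | h' <;> omega

/-- GP-3a -/
theorem ph_mem {u : ℤ} (hu : 0 ≤ u) (t : ℕ) {j : ℤ} (h1 : -u ≤ j) (h2 : j ≤ u) :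
    -u ≤ ph u t j ∧ ph u t j ≤ u := by
  have a1 := sg_mem h1 h2
  have a2 := ta_mem h1 h2
  have a3 := ti_mem h1 h2
  have b1 := sg_mem (u := u) (j := -j) (by omega) (by omega)
  have b2 := ta_mem (u := u) (j := -j) (by omega) (by omega)
  have b3 := ti_mem (u := u) (j := -j) (by omega) (by omega)
  rcases six t with h | h | h | h | h | h
  · rw [ph0 u j h]; omega
  · rw [ph1 u j h]; omega
  · rw [ph2 u j h]; omega
  · rw [ph3 u j h]; omega
  · rw [ph4 u j h]; omega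
  · rw [ph5 u j h]; omega

/-- GP-3b -/
theorem ps_mem {u : ℤ} (hu : 0 ≤ u) (t : ℕ) {j : ℤ} (h1 : -u ≤ j) (h2 : j ≤ u) :
    -u ≤ ps u t j ∧ ps u t j ≤ u := by
  have a1 := sg_mem h1 h2
  have a2 := ta_mem h1 h2
  have a3 := ti_mem h1 h2
  have b1 := sg_mem (u := u) (j := -j) (by omega) (by omega)
  have b2 := ta_mem (u := u) (j := -j) (by omega) (by omega)
  have b3 := ti_mem (u := u) (j := -j) (by omega) (by omega)
  rcases six t with h | h | h | h | h | h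
  · rw [ps0 u j h]; omega
  · rw [ps1 u j h]; omega
  · rw [ps2 u j h]; omega
  · rw [ps3 u j h]; omega
  · rw [ps4 u j h]; omega
  · rw [ps5 u j h]; omega

/-- GP-3c -/
theorem ps_ph {u : ℤ} (hu : 0 ≤ u) (t : ℕ) {j : ℤ} (h1 : -u ≤ j) (h2 : j ≤ u) :
    ps u t (ph u t j) = j := by
  have g1 : -u ≤ -j := by omega
  have g2 : -j ≤ u := by omega
  rcases six t with h | h | h | h | h | h
  · rw [ph0 u j h, ps0 _ _ h, sg_sg h1 h2]
  · rw [ph1 u j h, ps1 _ _ h, ti_ta h1 h2]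
  · rw [ph2 u j h, ps2 _ _ h, neg_neg, ta_ti g1 g2, neg_neg]
  · rw [ph3 u j h, ps3 _ _ h, neg_neg, sg_sg g1 g2, neg_neg]
  · rw [ph4 u j h, ps4 _ _ h, neg_neg, ti_ta g1 g2, neg_neg]
  · rw [ph5 u j h, ps5 _ _ h, ta_ti h1 h2]

/-- GP-3d -/
theorem ph_ps {u : ℤ} (hu : 0 ≤ u) (t : ℕ) {j : ℤ} (h1 : -u ≤ j) (h2 : j ≤ u) :
    ph u t (ps u t j) = j := by
  have g1 : -u ≤ -j := by omega
  have g2 : -j ≤ u := by omega
  rcases six t with h | h | h | h | h | h
  · rw [ps0 u j h, ph0 _ _ h, sg_sg h1 h2]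
  · rw [ps1 u j h, ph1 _ _ h, ta_ti h1 h2]
  · rw [ps2 u j h, ph2 _ _ h, neg_neg, ti_ta g1 g2, neg_neg]
  · rw [ps3 u j h, ph3 _ _ h, neg_neg, sg_sg g1 g2, neg_neg]
  · rw [ps4 u j h, ph4 _ _ h, neg_neg, ta_ti g1 g2, neg_neg]
  · rw [ps5 u j h, ph5 _ _ h, ti_ta h1 h2]

/-- GP-3e -/
theorem ph_add_ps {u : ℤ} (hu : 0 ≤ u) (t : ℕ) {j : ℤ} (h1 : -u ≤ j) (h2 : j ≤ u) :
    ph u (t + 1) j + ps u t j = j := by
  rcases six t with h | h | h | h | h | h
  · rw [ph1 u j (t := t + 1) (by omega), ps0 u j h]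
    unfold ta
    omega
  · rw [ph2 u j (t := t + 1) (by omega), ps1 u j h]
    rcases ti_or u j with a | a <;> rcases ti_or u (-j) with b | b <;> omega
  · rw [ph3 u j (t := t + 1) (by omega), ps2 u j h]
    unfold ta
    omega
  · rw [ph4 u j (t := t + 1) (by omega), ps3 u j h]
    unfold ta
    omega
  · rw [ph5 u j (t := t + 1) (by omega), ps4 u j h]
    rcases ti_or u j with a | a <;> rcases ti_or u (-j) with b | b <;> omega
  · rw [ph0 u j (t := t + 1) (by omega), ps5 u j h]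
    unfold ta
    omega

/-- GP-3f -/
theorem ph_neg (u : ℤ) (t : ℕ) (j : ℤ) : ph u (t + 3) (-j) = -ph u t j := by
  rcases six t with h | h | h | h | h | h
  · rw [ph3 _ _ (t := t + 3) (by omega), ph0 u j h, neg_neg]
  · rw [ph4 _ _ (t := t + 3) (by omega), ph1 u j h, neg_neg]
  · rw [ph5 _ _ (t := t + 3) (by omega), ph2 u j h, neg_neg]
  · rw [ph0 _ _ (t := t + 3) (by omega), ph3 u j h, neg_neg]
  · rw [ph1 _ _ (t := t + 3) (by omega), ph4 u j h, neg_neg]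
  · rw [ph2 _ _ (t := t + 3) (by omega), ph5 u j h, neg_neg]

/-- GP-3g -/
theorem ps_neg (u : ℤ) (t : ℕ) (j : ℤ) : ps u (t + 3) (-j) = -ps u t j := by
  rcases six t with h | h | h | h | h | h
  · rw [ps3 _ _ (t := t + 3) (by omega), ps0 u j h, neg_neg]
  · rw [ps4 _ _ (t := t + 3) (by omega), ps1 u j h, neg_neg]
  · rw [ps5 _ _ (t := t + 3) (by omega), ps2 u j h, neg_neg]
  · rw [ps0 _ _ (t := t + 3) (by omega), ps3 u j h, neg_neg]
  · rw [ps1 _ _ (t := t + 3) (by omega), ps4 u j h, neg_neg]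
  · rw [ps2 _ _ (t := t + 3) (by omega), ps5 u j h, neg_neg]

end Pool.Agent.Helper74.Gp
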