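import Pool.Agent.Helper74.Gp.LiftGen
import Pool.Agent.Helper74.Gp.Perm

/-! GP-4. A liftable graph on `X` lifts to `{q x + j : x ∈ X, |j| ≤ u}` for every `u ≥ 0`, `q > 2u`.

PLAN: apply `lift_gen` with `J = I u` and
`o x x' j = if x' = sc x then ph u (t x) j else if x' = pd x then ps u (t x') j else j`.
`sc x ≠ pd x` for `x ∈ X`: the types differ (`t (sc x) ≡ t x + 1`, `t x ≡ t (pd x) + 1` by `sc_pd`).
`hoo`: if `x' = sc x`: `pd x' = x` and `x ≠ sc x'` (types), so `o x' x v = ps u (t x) v`, use `ps_ph`;
if `x' = pd x`: `sc x' = x`, `o x' x v = ph u (t x') v`, use `ph_ps`; otherwise `x ≠ sc x'` (else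
`pd x = x'`) and `x ≠ pd x'`, both are the identity. `hos`: split off `sc x` and `pd x` from the sum;
`ph u (t x) j + ps u (t (pd x)) j = j` by `ph_add_ps`, `ph_congr` as `t x ≡ t (pd x) + 1`; the other
`r - 2` terms are `j`. `hon`: `sc_neg`, `pd_neg`, `t_neg`, `ph_neg`, `ps_neg`.
`hinj`: `q x + j = q x' + j'`, `|j|, |j'| ≤ u`, `2u < q` (if `x < x'` then `q ≤ q (x' - x) = j - j' ≤ 2u`). -/

namespace Pool.Agent.Helper74.Gp

open Finset Pool.Agent.Helper74.Hc

/-- GP-4 -/
theorem EF.lift {X : Finset ℤ} {r : ℕ} (h : EF X r) {u q : ℤ} (hu : 0 ≤ u) (hq : 2 * u < q) :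
    LGS (prX q X (I u)) r ((r : ℤ) - 1) := by
  obtain ⟨hX, N, t, sc, pd, hN, hN0, hNs, hF⟩ := h
  have hscX : ∀ x ∈ X, sc x ∈ X := fun x hx => (hN.sub (hF.sc_mem x hx)).2
  have hpdX : ∀ x ∈ X, pd x ∈ X := fun x hx => (hN.sub (hF.pd_mem x hx)).2
  have htp : ∀ x ∈ X, t x % 6 = (t (pd x) + 1) % 6 := by
    intro x hx
    have h1 := hF.t_sc (pd x) (hpdX x hx)
    rw [hF.sc_pd x hx] at h1
    exact h1
  have hne : ∀ x ∈ X, sc x ≠ pd x := by
    intro x hx he
    have h1 := hF.t_sc x hx
    have h2 := htp x hx
    rw [← he] at h2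
    omega
  have hI : ∀ {j : ℤ}, j ∈ I u → -u ≤ j ∧ j ≤ u := fun hj => mem_I.1 hj
  refine lift_gen (N := N) (o := fun x x' j =>
    if x' = sc x then ph u (t x) j else if x' = pd x then ps u (t x') j else j)
    ?_ hX ?_ hN hN0 hNs ?_ ?_ ?_ ?_
  · intro x _ j hj x' _ j' hj' he
    have h1 := hI hj
    have h2 := hI hj'
    have hx : x = x' := by
      by_contra hne
      rcases lt_or_gt_of_ne hne with h3 | h3
      · have h4 : q * 1 ≤ q * (x' - x) := by
          apply mul_le_mul_of_nonneg_left <;> omega
        have h5 : q * (x' - x) = j - j' := by linear_combination -he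
        omega
      · have h4 : q * 1 ≤ q * (x - x') := by
          apply mul_le_mul_of_nonneg_left <;> omega
        have h5 : q * (x - x') = j' - j := by linear_combination he
        omega
    subst hx
    exact ⟨rfl, by omega⟩
  · intro j hj
    have h1 := hI hj
    exact mem_I.2 ⟨by omega, by omega⟩
  · intro x _ x' _ j hj
    have h1 := hI hj
    show (if x' = sc x then ph u (t x) j else if x' = pd x then ps u (t x') j else j) ∈ I u
    split_ifs
    · exact mem_I.2 (ph_mem hu _ h1.1 h1.2)
    · exact mem_I.2 (ps_mem hu _ h1.1 h1.2)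
    · exact hj
  · intro x hx x' hx' j hj
    have h1 := hI hj
    have hx'X : x' ∈ X := (hN.sub hx').2
    show (if x = sc x' then ph u (t x')
        (if x' = sc x then ph u (t x) j else if x' = pd x then ps u (t x') j else j)
      else if x = pd x' then ps u (t x)
        (if x' = sc x then ph u (t x) j else if x' = pd x then ps u (t x') j else j)
      else (if x' = sc x then ph u (t x) j else if x' = pd x then ps u (t x') j else j)) = j
    by_cases hs : x' = sc x
    · have e1 : x = pd x' := by rw [hs, hF.pd_sc x hx]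
      have e2 : x ≠ sc x' := by
        intro hc
        have := hne x' hx'X
        exact this (hc.symm.trans e1)
      rw [if_neg e2, if_pos e1, if_pos hs]
      exact ps_ph hu _ h1.1 h1.2
    · by_cases hp : x' = pd x
      · have e1 : x = sc x' := by rw [hp, hF.sc_pd x hx]
        rw [if_pos e1, if_neg hs, if_pos hp]
        exact ph_ps hu _ h1.1 h1.2
      · have e1 : x ≠ sc x' := by
          intro hc
          apply hp
          rw [hc, hF.pd_sc x' hx'X]
        have e2 : x ≠ pd x' := by
          intro hc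
          apply hs
          rw [hc, hF.sc_pd x' hx'X]
        rw [if_neg e1, if_neg e2, if_neg hs, if_neg hp]
  · intro x hx j hj
    have h1 := hI hj
    have e1 : ∀ x' ∈ N x,
        (if x' = sc x then ph u (t x) j else if x' = pd x then ps u (t x') j else j) =
          j + (if x' = sc x then ph u (t x) j - j else 0) +
            (if x' = pd x then ps u (t x') j - j else 0) := by
      intro x' _
      by_cases hs : x' = sc x
      · have hp : x' ≠ pd x := by
          rw [hs]
          exact hne x hx
        rw [if_pos hs, if_pos hs, if_neg hp]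
        ring
      · rw [if_neg hs, if_neg hs]
        by_cases hp : x' = pd x
        · rw [if_pos hp, if_pos hp]
          ring
        · rw [if_neg hp, if_neg hp]
          ring
    show ∑ x' ∈ N x, (if x' = sc x then ph u (t x) j else if x' = pd x then ps u (t x') j else j) =
      ((r : ℤ) - 1) * j
    rw [Finset.sum_congr rfl e1, Finset.sum_add_distrib, Finset.sum_add_distrib,
      Finset.sum_ite_eq' (N x) (sc x), if_pos (hF.sc_mem x hx),
      Finset.sum_ite_eq' (N x) (pd x), if_pos (hF.pd_mem x hx), Finset.sum_const, hN.card x hx]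
    have e2 : ph u (t x) j = ph u (t (pd x) + 1) j := ph_congr u (htp x hx) j
    have e3 := ph_add_ps hu (t (pd x)) h1.1 h1.2
    rw [e2, nsmul_eq_mul]
    linear_combination e3
  · intro x hx x' hx' j _
    have hx'X : x' ∈ X := (hN.sub hx').2
    show (if -x' = sc (-x) then ph u (t (-x)) (-j) else
        if -x' = pd (-x) then ps u (t (-x')) (-j) else -j) =
      -(if x' = sc x then ph u (t x) j else if x' = pd x then ps u (t x') j else j)
    simp only [hF.sc_neg x hx, hF.pd_neg x hx, neg_inj]
    have e1 : ph u (t (-x)) (-j) = -ph u (t x) j := by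
      rw [ph_congr u (hF.t_neg x hx), ph_neg]
    have e2 : ps u (t (-x')) (-j) = -ps u (t x') j := by
      rw [ps_congr u (hF.t_neg x' hx'X), ps_neg]
    rw [e1, e2]
    split_ifs <;> rfl

end Pool.Agent.Helper74.Gp
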