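import Pool.Agent.Helper74.Gp.Defs

/-! GP-2. Voltage lifts. `N` is a label graph on `X`; the vertex `q x + j` (`x ∈ X`, `j ∈ J`) is joined to
`q x' + o x x' j` for `x' ∈ N x`.

PLAN: as in `Pool/Agent/Helper74/Hc/ExProd.lean` (`prN_eq`, `prod_gen`): with `liftN` as below, for
`x ∈ X`, `j ∈ J` we have `liftN .. (q x + j) = (N x).image (fun x' => q x' + o x x' j)` (by `hinj`), and
`liftN .. z = ∅` for `z ∉ prX q X J`. Symmetry: `hoo`, `ho`, symmetry of `N`. No loop / no edge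
`z — -z`: by `hinj` it would give `x ∈ N x`, `-x ∈ N x`. Card: the map is injective on `N x` by `hinj`.
Sum: `q Σ x' + Σ o x x' j = q s x + s j`. Central symmetry: `hon`. -/

namespace Pool.Agent.Helper74.Gp

open Finset Pool.Agent.Helper74.Hc

/-- neighbourhoods in the lift -/
def liftN (q : ℤ) (X J : Finset ℤ) (N : ℤ → Finset ℤ) (o : ℤ → ℤ → ℤ → ℤ) (z : ℤ) : Finset ℤ :=
  (X ×ˢ J).biUnion fun p =>
    if q * p.1 + p.2 = z then (N p.1).image (fun x' => q * x' + o p.1 x' p.2) else ∅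

private theorem liftN_eq {q : ℤ} {X J : Finset ℤ} {N : ℤ → Finset ℤ} {o : ℤ → ℤ → ℤ → ℤ}
    (hinj : ∀ x ∈ X, ∀ j ∈ J, ∀ x' ∈ X, ∀ j' ∈ J, q * x + j = q * x' + j' → x = x' ∧ j = j')
    {x j : ℤ} (hx : x ∈ X) (hj : j ∈ J) :
    liftN q X J N o (q * x + j) = (N x).image (fun x' => q * x' + o x x' j) := by
  ext y
  unfold liftN
  rw [mem_biUnion]
  constructor
  · rintro ⟨p, hp, hy⟩
    rw [mem_product] at hp
    by_cases h : q * p.1 + p.2 = q * x + j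
    · rw [if_pos h] at hy
      obtain ⟨e1, e2⟩ := hinj p.1 hp.1 p.2 hp.2 x hx j hj h
      rw [e1, e2] at hy
      exact hy
    · rw [if_neg h] at hy
      simp at hy
  · intro hy
    refine ⟨(x, j), mem_product.2 ⟨hx, hj⟩, ?_⟩
    rw [if_pos rfl]
    exact hy

/-- GP-2 -/
theorem lift_gen {q : ℤ} {X J : Finset ℤ} {N : ℤ → Finset ℤ} {r : ℕ} {s : ℤ} {o : ℤ → ℤ → ℤ → ℤ}
    (hinj : ∀ x ∈ X, ∀ j ∈ J, ∀ x' ∈ X, ∀ j' ∈ J, q * x + j = q * x' + j' → x = x' ∧ j = j')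
    (hX : ∀ x ∈ X, -x ∈ X) (hJ : ∀ j ∈ J, -j ∈ J)
    (hN : IsLG N X r s) (hN0 : ∀ x, -x ∉ N x) (hNs : ∀ x y, y ∈ N x → -y ∈ N (-x))
    (ho : ∀ x ∈ X, ∀ x' ∈ N x, ∀ j ∈ J, o x x' j ∈ J)
    (hoo : ∀ x ∈ X, ∀ x' ∈ N x, ∀ j ∈ J, o x' x (o x x' j) = j)
    (hos : ∀ x ∈ X, ∀ j ∈ J, ∑ x' ∈ N x, o x x' j = s * j)
    (hon : ∀ x ∈ X, ∀ x' ∈ N x, ∀ j ∈ J, o (-x) (-x') (-j) = -o x x' j) :
    LGS (prX q X J) r s := by
  have hnb : ∀ {x j y : ℤ}, x ∈ X → j ∈ J → y ∈ liftN q X J N o (q * x + j) →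
      ∃ x' ∈ N x, y = q * x' + o x x' j := by
    intro x j y hx hj hy
    rw [liftN_eq hinj hx hj, mem_image] at hy
    obtain ⟨x', h3, h4⟩ := hy
    exact ⟨x', h3, h4.symm⟩
  have hout : ∀ z, z ∉ prX q X J → liftN q X J N o z = ∅ := by
    intro z hz
    unfold liftN
    rw [Finset.eq_empty_iff_forall_notMem]
    intro y hy
    rw [mem_biUnion] at hy
    obtain ⟨p, hp, hy⟩ := hy
    rw [mem_product] at hp
    by_cases h : q * p.1 + p.2 = z
    · exact hz (mem_prX.2 ⟨p.1, hp.1, p.2, hp.2, h⟩)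
    · rw [if_neg h] at hy
      simp at hy
  have hij : ∀ {x j : ℤ}, x ∈ X → j ∈ J →
      Set.InjOn (fun x' => q * x' + o x x' j) (N x : Set ℤ) := by
    intro x j hx hj c hc d hd hcd
    have hc' : c ∈ N x := hc
    have hd' : d ∈ N x := hd
    exact (hinj c (hN.sub hc').2 _ (ho x hx c hc' j hj) d (hN.sub hd').2 _
      (ho x hx d hd' j hj) hcd).1
  refine ⟨liftN q X J N o, ⟨⟨?_, ?_⟩, hout, ?_, ?_⟩, ?_, ?_⟩
  · intro z y hy
    by_cases hz : z ∈ prX q X J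
    · obtain ⟨x, hx, j, hj, rfl⟩ := mem_prX.1 hz
      obtain ⟨x', h3, rfl⟩ := hnb hx hj hy
      have hx' := (hN.sub h3).2
      rw [liftN_eq hinj hx' (ho x hx x' h3 j hj), mem_image]
      exact ⟨x, hN.gr.symm _ _ h3, by rw [hoo x hx x' h3 j hj]⟩
    · rw [hout z hz] at hy
      simp at hy
  · intro z hy
    by_cases hz : z ∈ prX q X J
    · obtain ⟨x, hx, j, hj, rfl⟩ := mem_prX.1 hz
      obtain ⟨x', h3, h4⟩ := hnb hx hj hy
      have := (hinj x hx j hj x' (hN.sub h3).2 _ (ho x hx x' h3 j hj) h4).1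
      exact hN.gr.irr x (this ▸ h3)
    · rw [hout z hz] at hy
      simp at hy
  · intro z hz
    obtain ⟨x, hx, j, hj, rfl⟩ := mem_prX.1 hz
    rw [liftN_eq hinj hx hj, Finset.card_image_of_injOn (hij hx hj), hN.card x hx]
  · intro z hz
    obtain ⟨x, hx, j, hj, rfl⟩ := mem_prX.1 hz
    rw [liftN_eq hinj hx hj, Finset.sum_image (hij hx hj), Finset.sum_add_distrib,
      ← Finset.mul_sum, hN.sum x hx, hos x hx j hj]
    ring
  · intro z hy
    by_cases hz : z ∈ prX q X J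
    · obtain ⟨x, hx, j, hj, rfl⟩ := mem_prX.1 hz
      obtain ⟨x', h3, h4⟩ := hnb hx hj hy
      have h5 : q * (-x) + (-j) = q * x' + o x x' j := by rw [← h4]; ring
      have := (hinj (-x) (hX x hx) (-j) (hJ j hj) x' (hN.sub h3).2 _ (ho x hx x' h3 j hj) h5).1
      exact hN0 x (this ▸ h3)
    · rw [hout z hz] at hy
      simp at hy
  · intro z y hy
    by_cases hz : z ∈ prX q X J
    · obtain ⟨x, hx, j, hj, rfl⟩ := mem_prX.1 hz
      obtain ⟨x', h3, rfl⟩ := hnb hx hj hy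
      have h5 : -(q * x + j) = q * (-x) + (-j) := by ring
      rw [h5, liftN_eq hinj (hX x hx) (hJ j hj), mem_image]
      refine ⟨-x', hNs x x' h3, ?_⟩
      rw [hon x hx x' h3 j hj]
      ring
    · rw [hout z hz] at hy
      simp at hy

end Pool.Agent.Helper74.Gp
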