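import Pool.Agent.Helper74.Gp.Defs
import Pool.Agent.Helper74.Hc.Lang
import Pool.Agent.Helper74.Hc.Tri

/-! GP-7. Graphs from Langford-type triples: degree 2, slope 1.

PLAN: `tr_isLG` (file `Hc/Tri.lean`) gives the three parts of `LGS`. For `shell` use `lang s t` (file
`Hc/Lang.lean`; only its first three properties are needed). For the small ones take explicit `T`, e.g.
`{(1,11),(3,7),(4,5),(2,6)}` for `sch12` (all hypotheses by `decide` or by `simp`/`omega`). -/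

namespace Pool.Agent.Helper74.Gp

open Finset Pool.Agent.Helper74.Hc

/-- a general form -/
private theorem shell_aux {T : Finset (ℤ × ℤ)} {X : Finset ℤ} {a n : ℤ} (ha : 0 < a)
    (hX : ∀ x, x ∈ X → x ∈ SI a n)
    (h1 : ∀ p ∈ T, 0 < p.1 ∧ p.1 < p.2)
    (h2 : ∀ p ∈ T, ∀ q ∈ T, p ≠ q →
      Disjoint ({p.1, p.2, p.1 + p.2} : Finset ℤ) {q.1, q.2, q.1 + q.2})
    (h3 : ∀ w, a ≤ w → w ≤ n → (w ∈ X ∨ -w ∈ X) →
      ∃ p ∈ T, w = p.1 ∨ w = p.2 ∨ w = p.1 + p.2)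
    (h4 : ∀ p ∈ T, p.1 ∈ X ∧ p.2 ∈ X ∧ p.1 + p.2 ∈ X ∧ -p.1 ∈ X ∧ -p.2 ∈ X ∧
      -(p.1 + p.2) ∈ X) : LGS X 2 1 := by
  refine ⟨trN T, tr_isLG h1 h2 ?_ h4⟩
  intro v hv
  have hv' : v ∈ SI a n ∨ -v ∈ SI a n := hv.imp (hX v) (hX (-v))
  rw [mem_SI, mem_SI] at hv'
  rcases abs_cases v with ⟨h5, h6⟩ | ⟨h5, h6⟩
  · rw [h5]
    exact h3 v (by omega) (by omega) hv
  · rw [h5]
    refine h3 (-v) (by omega) (by omega) ?_
    rw [neg_neg]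
    exact hv.symm

/-- explicit triples -/
private theorem small_aux {T : Finset (ℤ × ℤ)} {n : ℤ}
    (h1 : ∀ p ∈ T, 0 < p.1 ∧ p.1 < p.2)
    (h2 : ∀ p ∈ T, ∀ q ∈ T, p ≠ q →
      Disjoint ({p.1, p.2, p.1 + p.2} : Finset ℤ) {q.1, q.2, q.1 + q.2})
    (h3 : ∀ w ∈ Icc (1 : ℤ) n, ∃ p ∈ T, w = p.1 ∨ w = p.2 ∨ w = p.1 + p.2)
    (h4 : ∀ p ∈ T, p.1 + p.2 ≤ n) : LGS (SI 1 n) 2 1 := by
  refine shell_aux (a := 1) (n := n) one_pos (fun x hx => hx) h1 h2 ?_ ?_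
  · intro w hw1 hw2 _
    exact h3 w (mem_Icc.2 ⟨hw1, hw2⟩)
  · intro p hp
    have a1 := h1 p hp
    have a2 := h4 p hp
    simp only [mem_SI]
    omega

/-- GP-7a -/
theorem shell {s t : ℤ} (h0 : 0 ≤ s) (h1 : s + 2 ≤ t) : LGS (SI t (13 * t + 12 * s - 1)) 2 1 := by
  obtain ⟨T, c₂, c₃, c₄, p1, p2, p3, -⟩ := lang s t h0 h1
  refine shell_aux (a := t) (n := 13 * t + 12 * s - 1) (by omega) (fun x hx => hx) p1 p2 ?_ ?_
  · intro w hw1 hw2 _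
    exact (p3 w).1 ⟨hw1, by omega⟩
  · intro p hp
    have a1 := (p3 p.1).2 ⟨p, hp, Or.inl rfl⟩
    have a2 := (p3 p.2).2 ⟨p, hp, Or.inr (Or.inl rfl)⟩
    have a3 := (p3 (p.1 + p.2)).2 ⟨p, hp, Or.inr (Or.inr rfl)⟩
    simp only [mem_SI]
    omega

/-- GP-7b: triple `(1, 2)` -/
theorem sch3 : LGS (SI 1 3) 2 1 := by
  refine small_aux (T := {(1, 2)}) ?_ ?_ ?_ ?_
  · decide
  · decide
  · decide
  · decide

/-- GP-7c: triples `(1,11), (3,7), (4,5), (2,6)` -/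
theorem sch12 : LGS (SI 1 12) 2 1 := by
  refine small_aux (T := {(1, 11), (3, 7), (4, 5), (2, 6)}) ?_ ?_ ?_ ?_
  · decide
  · decide
  · decide
  · decide

/-- GP-7d: triples `(1,14), (3,10), (4,8), (5,6), (2,7)` -/
theorem sch15 : LGS (SI 1 15) 2 1 := by
  refine small_aux (T := {(1, 14), (3, 10), (4, 8), (5, 6), (2, 7)}) ?_ ?_ ?_ ?_
  · decide
  · decide
  · decide
  · decide

/-- GP-7e: triples `(1,23), (2,20), (5,16), (6,13), (7,11), (8,9), (3,12), (4,10)` -/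
theorem sch24 : LGS (SI 1 24) 2 1 := by
  refine small_aux (T := {(1, 23), (2, 20), (5, 16), (6, 13), (7, 11), (8, 9), (3, 12), (4, 10)}) ?_ ?_ ?_ ?_
  · decide
  · decide
  · decide
  · decide

/-- GP-7f: triples `(2,22), (6,14), (8,10), (4,12)`; the even numbers in `±[1, 24]` -/
theorem sch24e : LGS ((SI 1 24).filter fun x => x % 2 = 0) 2 1 := by
  refine shell_aux (T := {(2, 22), (6, 14), (8, 10), (4, 12)}) (a := 1) (n := 24) one_pos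
    (fun x hx => (mem_filter.1 hx).1) ?_ ?_ ?_ ?_
  · decide
  · decide
  · intro w hw1 hw2 hw
    rw [mem_filter, mem_filter] at hw
    have h2 : w % 2 = 0 := by omega
    have key : ∀ w ∈ Icc (1 : ℤ) 24, w % 2 = 0 →
        ∃ p ∈ ({(2, 22), (6, 14), (8, 10), (4, 12)} : Finset (ℤ × ℤ)),
          w = p.1 ∨ w = p.2 ∨ w = p.1 + p.2 := by decide
    exact key w (mem_Icc.2 ⟨hw1, hw2⟩) h2
  · intro p hp
    have a1 : ∀ p ∈ ({(2, 22), (6, 14), (8, 10), (4, 12)} : Finset (ℤ × ℤ)),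
        0 < p.1 ∧ p.1 < p.2 ∧ p.1 + p.2 ≤ 24 ∧ p.1 % 2 = 0 ∧ p.2 % 2 = 0 := by decide
    have a2 := a1 p hp
    simp only [mem_filter, mem_SI]
    omega

end Pool.Agent.Helper74.Gp
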