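import Pool.Agent.Helper74.Gp.Defs

/-! GP-6c. Tiling of an interval by blocks.

PLAN. Period `2q`, `q = c + u + 1` (in 6c: `q = w + u + 1`, `c := w`): put `y = (z + c) / (2 q)`,
`ρ = (z + c) % (2 q)`. If `ρ ≤ 2 c` then `z = q (2y) + (ρ - c)`, even block `x = 2y`, `j = ρ - c`; otherwise
`z = q (2y+1) + (ρ - 2c - u - 1)`, odd block, with `|ρ - 2c - u - 1| ≤ u`. `y` is bounded (`-13 ≤ y ≤ 13`), so
one may split into the finitely many values of `y` (`interval_cases y`) and finish each case by `omega` after
substituting `q` (`q` times a numeral is linear). An even block (`x = 2y`) splits into `|j| ≤ u`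
(first product) and `u < |j|` (second product, `prX (2 q) (SI 1 12) ..`, note `2 q * y = q * (2 y)`). For the converse inclusions and the disjointness: the elements
`x` are numerals (`1 ≤ |x| ≤ 25`), `interval_cases x` and `omega`; or use: two points `q x + j = q x' + j'`
with `|j| + |j'| < q` have `x = x'`. Private auxiliary lemmas are welcome. -/

namespace Pool.Agent.Helper74.Gp

open Finset Pool.Agent.Helper74.Hc

private theorem tb_zero {d q e : ℤ} (hq : 0 < q) (h : q * d = e) (h1 : -q < e) (h2 : e < q) :
    d = 0 := by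
  by_contra hd
  rcases lt_or_gt_of_ne hd with h3 | h3
  · have : q * d ≤ q * (-1) := mul_le_mul_of_nonneg_left (by omega) hq.le
    omega
  · have : q * 1 ≤ q * d := mul_le_mul_of_nonneg_left (by omega) hq.le
    omega

/-- GP-6c: core `I (q + u)` (three blocks), even blocks of radius `w`, odd blocks of radius `u` -/
theorem tile_b {w u q : ℤ} (hu : 0 ≤ u) (huw : u ≤ w) (hq : q = w + u + 1) :
    I (25 * q + u) = I (q + u) ∪ (prX q (SI 2 25) (I u) ∪ prX (2 * q) (SI 1 12) (SI (u + 1) w)) ∧
      Disjoint (I (q + u)) (prX q (SI 2 25) (I u) ∪ prX (2 * q) (SI 1 12) (SI (u + 1) w)) ∧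
      Disjoint (prX q (SI 2 25) (I u)) (prX (2 * q) (SI 1 12) (SI (u + 1) w)) := by
  have hq0 : 0 < q := by omega
  refine ⟨?_, ?_, ?_⟩
  · ext z
    rw [mem_union, mem_union, mem_prX, mem_prX, mem_I, mem_I]
    constructor
    · rintro ⟨h1, h2⟩
      obtain ⟨y, hy⟩ : ∃ y : ℤ, y = (z + w) / (2 * q) := ⟨_, rfl⟩
      obtain ⟨ρ, hρ⟩ : ∃ ρ : ℤ, ρ = (z + w) % (2 * q) := ⟨_, rfl⟩
      have h3 : 2 * q * y + ρ = z + w := by
        rw [hy, hρ]
        exact Int.mul_ediv_add_emod _ _
      have h4 : 0 ≤ ρ := by
        rw [hρ]
        exact Int.emod_nonneg _ (by omega)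
      have h5 : ρ < 2 * q := by
        rw [hρ]
        exact Int.emod_lt_of_pos _ (by omega)
      have h6 : -13 ≤ y := by
        by_contra hc
        have : 2 * q * y ≤ 2 * q * (-14) := mul_le_mul_of_nonneg_left (by omega) (by omega)
        omega
      have h7 : y ≤ 12 := by
        by_contra hc
        have : 2 * q * 13 ≤ 2 * q * y := mul_le_mul_of_nonneg_left (by omega) (by omega)
        omega
      by_cases h8 : ρ ≤ 2 * w
      · by_cases h9 : y = 0
        · left
          rw [h9, mul_zero] at h3
          constructor <;> omega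
        · right
          have h11 : -12 ≤ y := by
            by_contra hc
            have h12 : y = -13 := by omega
            rw [h12] at h3
            omega
          by_cases h10 : -u ≤ ρ - w ∧ ρ - w ≤ u
          · left
            refine ⟨2 * y, mem_SI.2 (by omega), ρ - w, mem_I.2 h10, ?_⟩
            linarith
          · right
            refine ⟨y, mem_SI.2 (by omega), ρ - w, mem_SI.2 (by omega), ?_⟩
            linarith
      · by_cases h9 : y = 0
        · left
          rw [h9, mul_zero] at h3
          constructor <;> omega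
        · by_cases h10 : y = -1
          · left
            rw [h10] at h3
            constructor <;> omega
          · right
            left
            refine ⟨2 * y + 1, mem_SI.2 (by omega), ρ - 2 * w - u - 1, mem_I.2 (by omega), ?_⟩
            linarith
    · rintro (⟨h1, h2⟩ | ⟨x, hx, j, hj, h⟩ | ⟨x, hx, j, hj, h⟩)
      · constructor <;> omega
      · rw [mem_SI] at hx
        rw [mem_I] at hj
        have h1 : q * x ≤ q * 25 := mul_le_mul_of_nonneg_left (by omega) hq0.le
        have h2 : q * (-25) ≤ q * x := mul_le_mul_of_nonneg_left (by omega) hq0.le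
        constructor <;> omega
      · rw [mem_SI] at hx hj
        have h1 : 2 * q * x ≤ 2 * q * 12 := mul_le_mul_of_nonneg_left (by omega) (by omega)
        have h2 : 2 * q * (-12) ≤ 2 * q * x := mul_le_mul_of_nonneg_left (by omega) (by omega)
        constructor <;> omega
  · rw [Finset.disjoint_left]
    intro z hz hz'
    rw [mem_I] at hz
    rw [mem_union, mem_prX, mem_prX] at hz'
    rcases hz' with ⟨x, hx, j, hj, h⟩ | ⟨x, hx, j, hj, h⟩
    · rw [mem_SI] at hx
      rw [mem_I] at hj
      rcases hx with hx | hx
      · have h1 : q * 2 ≤ q * x := mul_le_mul_of_nonneg_left hx.1 hq0.le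
        omega
      · have h1 : q * x ≤ q * (-2) := mul_le_mul_of_nonneg_left hx.2 hq0.le
        omega
    · rw [mem_SI] at hx hj
      rcases hx with hx | hx
      · have h1 : 2 * q * 1 ≤ 2 * q * x := mul_le_mul_of_nonneg_left hx.1 (by omega)
        omega
      · have h1 : 2 * q * x ≤ 2 * q * (-1) := mul_le_mul_of_nonneg_left hx.2 (by omega)
        omega
  · rw [Finset.disjoint_left]
    intro z hz hz'
    rw [mem_prX] at hz hz'
    obtain ⟨x, hx, j, hj, h⟩ := hz
    obtain ⟨x', hx', j', hj', h'⟩ := hz'
    rw [mem_I] at hj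
    rw [mem_SI] at hj'
    have h1 : x - 2 * x' = 0 := by
      refine tb_zero (e := j' - j) hq0 ?_ (by omega) (by omega)
      linarith
    have h2 : x = 2 * x' := by omega
    rw [h2] at h
    have h3 : q * (2 * x') = 2 * q * x' := by ring
    omega

end Pool.Agent.Helper74.Gp
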