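import Pool.Agent.Helper74.Gp.Defs

/-! GP-6d. Tiling of an interval by blocks.

PLAN. Period `2q`, `q = c + u + 1` (in 6c: `q = w + u + 1`, `c := w`): put `y = (z + c) / (2 q)`,
`ρ = (z + c) % (2 q)`. If `ρ ≤ 2 c` then `z = q (2y) + (ρ - c)`, even block `x = 2y`, `j = ρ - c`; otherwise
`z = q (2y+1) + (ρ - 2c - u - 1)`, odd block, with `|ρ - 2c - u - 1| ≤ u`. `y` is bounded (`-13 ≤ y ≤ 13`), so
one may split into the finitely many values of `y` (`interval_cases y`) and finish each case by `omega` after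
substituting `q` (`q` times a numeral is linear). For the converse inclusions and the disjointness: the elements
`x` are numerals (`1 ≤ |x| ≤ 25`), `interval_cases x` and `omega`; or use: two points `q x + j = q x' + j'`
with `|j| + |j'| < q` have `x = x'`. Private auxiliary lemmas are welcome. -/

namespace Pool.Agent.Helper74.Gp

open Finset Pool.Agent.Helper74.Hc

/-- the pairs `(x, j)`, `x ∈ ±[1, 24]`, `|j| ≤ c` for even `x` and `|j| ≤ u` for odd `x` -/
noncomputable def dtu (c u : ℤ) : Finset (ℤ × ℤ) :=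
  ((SI 1 24) ×ˢ (I c)).filter fun p => p.1 % 2 = 0 ∨ (-u ≤ p.2 ∧ p.2 ≤ u)

theorem mem_dtu {c u x j : ℤ} : (x, j) ∈ dtu c u ↔
    ((1 ≤ x ∧ x ≤ 24) ∨ (-24 ≤ x ∧ x ≤ -1)) ∧ (-c ≤ j ∧ j ≤ c) ∧ (x % 2 = 0 ∨ (-u ≤ j ∧ j ≤ u)) := by
  unfold dtu
  rw [mem_filter, mem_product, mem_SI, mem_I]
  tauto

/-- GP-6d -/
theorem tile_d {c u q : ℤ} (hu : 0 ≤ u) (huc : u ≤ c) (hq : q = c + u + 1) :
    I (c + 24 * q) = I c ∪ fibX q (dtu c u) ∧ Disjoint (I c) (fibX q (dtu c u)) := by
  have hq0 : 0 < q := by omega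
  refine ⟨?_, ?_⟩
  · ext z
    rw [mem_union, mem_fibX, mem_I, mem_I]
    constructor
    · rintro ⟨h1, h2⟩
      obtain ⟨y, hy⟩ : ∃ y : ℤ, y = (z + c) / (2 * q) := ⟨_, rfl⟩
      obtain ⟨ρ, hρ⟩ : ∃ ρ : ℤ, ρ = (z + c) % (2 * q) := ⟨_, rfl⟩
      have h3 : 2 * q * y + ρ = z + c := by
        rw [hy, hρ]
        exact Int.mul_ediv_add_emod _ _
      have h4 : 0 ≤ ρ := by
        rw [hρ]
        exact Int.emod_nonneg _ (by omega)
      have h5 : ρ < 2 * q := by
        rw [hρ]
        exact Int.emod_lt_of_pos _ (by omega)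
      have h6 : -12 ≤ y := by
        by_contra hc
        have : 2 * q * y ≤ 2 * q * (-13) := mul_le_mul_of_nonneg_left (by omega) (by omega)
        omega
      have h7 : y ≤ 12 := by
        by_contra hc
        have : 2 * q * 13 ≤ 2 * q * y := mul_le_mul_of_nonneg_left (by omega) (by omega)
        omega
      by_cases h8 : ρ ≤ 2 * c
      · by_cases h9 : y = 0
        · left
          rw [h9, mul_zero] at h3
          constructor <;> omega
        · right
          refine ⟨2 * y, ρ - c, mem_dtu.2 ⟨by omega, by omega, by omega⟩, ?_⟩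
          linarith
      · right
        have h11 : y ≤ 11 := by
          by_contra hc
          have h12 : y = 12 := by omega
          rw [h12] at h3
          omega
        refine ⟨2 * y + 1, ρ - 2 * c - u - 1, mem_dtu.2 ⟨by omega, by omega, by omega⟩, ?_⟩
        linarith
    · rintro (⟨h1, h2⟩ | ⟨x, j, hx, h⟩)
      · constructor <;> omega
      · rw [mem_dtu] at hx
        have h1 : q * x ≤ q * 24 := mul_le_mul_of_nonneg_left (by omega) hq0.le
        have h2 : q * (-24) ≤ q * x := mul_le_mul_of_nonneg_left (by omega) hq0.le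
        constructor <;> omega
  · rw [Finset.disjoint_left]
    intro z hz hz'
    rw [mem_I] at hz
    rw [mem_fibX] at hz'
    obtain ⟨x, j, hx, h⟩ := hz'
    rw [mem_dtu] at hx
    obtain ⟨hx1, hj, hxj⟩ := hx
    have hx2 : (2 ≤ x ∨ x ≤ -2) ∨ (-u ≤ j ∧ j ≤ u) := by omega
    rcases hx2 with (h2 | h2) | h2
    · have h1 : q * 2 ≤ q * x := mul_le_mul_of_nonneg_left h2 hq0.le
      omega
    · have h1 : q * x ≤ q * (-2) := mul_le_mul_of_nonneg_left h2 hq0.le
      omega
    · rcases hx1 with hx | hx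
      · have h1 : q * 1 ≤ q * x := mul_le_mul_of_nonneg_left hx.1 hq0.le
        omega
      · have h1 : q * x ≤ q * (-1) := mul_le_mul_of_nonneg_left hx.2 hq0.le
        omega

end Pool.Agent.Helper74.Gp
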