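import Pool.Agent.Helper74.Gp.TileU
import Pool.Agent.Helper74.Gp.TileA
import Pool.Agent.Helper74.Gp.TileB
import Pool.Agent.Helper74.Gp.TileD
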