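import Pool.Agent.Helper74.Gp.Fib
import Pool.Agent.Helper74.Gp.Tile
import Pool.Agent.Helper74.Gp.Shell

/-! GP-9. The step for higher degree: in the blocks `|j| ≤ c` (even `x`) and `|j| ≤ u` (odd `x`) the
vertical graphs are label graphs of degree `a`, slope `ε (a - 1)`, on the intervals `I c`, `I u`; horizontally
we use Schur triples.

PLAN: `tile_d` with `q = c + u + 1`, `LG.union'`, and `fib` for `D = dtu c u`, `b = 2`:
`V x = if x ∈ SI 1 24 then (if x % 2 = 0 then Nc else Nu) else fun _ => ∅`, `C x = ` the corresponding sets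
(`I c`, `I u`, `∅`), `H j = ` (graph of `sch24`, with sign `ε`) if `|j| ≤ u`, (graph of `sch24e`, with sign
`ε`) if `u < |j| ≤ c`, and `fun _ => ∅` otherwise; `R j` correspondingly (`SI 1 24`, its even part, `∅`).
For `ε = -1` use `LGS.neg`; both have no edges `x — -x`. `x ∈ SI 1 24 ↔ -x ∈ SI 1 24`, `(-x) % 2 = 0 ↔ x % 2 = 0`.
Injectivity of `q x + j` on `dtu c u`: for numerals `x, x'`; if `x = x'` clear; if `|x - x'| ≥ 2` then
`q |x - x'| ≥ 2 q > 2 c`; if `|x - x'| = 1` one of `x, x'` is odd and `|j| + |j'| ≤ c + u < q`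
(use `mem_dtu`, `interval_cases` or a nonlinear argument). The empty graph is `IsLG` on `∅` for every degree.
Note `25 c + 24 u + 24 = c + 24 (c + u + 1)` and the slope `ε (a + 2 - 1)`. -/

namespace Pool.Agent.Helper74.Gp

open Finset Pool.Agent.Helper74.Hc

private theorem sgn0 {X : Finset ℤ} {r : ℕ} {s ε : ℤ} (hε : ε = 1 ∨ ε = -1) (h : LGS X r s) :
    ∃ N, IsLG N X r (ε * s) ∧ ∀ x, -x ∉ N x := by
  rcases hε with rfl | rfl
  · rw [one_mul]
    exact h.lg0
  · rw [neg_one_mul]
    exact h.neg.lg0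

private theorem isLG_empty (r : ℕ) (s : ℤ) : IsLG (fun _ => ∅) ∅ r s :=
  ⟨⟨fun _ _ h => by simp at h, fun _ h => by simp at h⟩, fun _ _ => rfl,
    fun _ h => by simp at h, fun _ h => by simp at h⟩

private theorem dtu_inj {c u q x j x' j' : ℤ} (hu : 0 ≤ u) (huc : u ≤ c) (hq : q = c + u + 1)
    (h1 : (x, j) ∈ dtu c u) (h2 : (x', j') ∈ dtu c u) (hlt : x < x') :
    q * x + j ≠ q * x' + j' := by
  intro e
  rw [mem_dtu] at h1 h2
  obtain ⟨-, a1, a2⟩ := h1
  obtain ⟨-, b1, b2⟩ := h2
  rcases (show x' = x + 1 ∨ x + 2 ≤ x' by omega) with rfl | h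
  · have e2 : j = q + j' := by linarith [mul_add q x 1]
    subst hq
    omega
  · have h3 : q * (x + 2) ≤ q * x' := mul_le_mul_of_nonneg_left h (by omega)
    have e2 : j - j' ≥ 2 * q := by linarith [mul_add q x 2]
    omega

/-- GP-9 -/
theorem step_d {ε : ℤ} (hε : ε = 1 ∨ ε = -1) {a : ℕ} {c u : ℤ} (hu : 0 ≤ u) (huc : u ≤ c)
    (h1 : P ε a c) (h2 : P ε a u) (h : P ε (a + 2) c) : P ε (a + 2) (25 * c + 24 * u + 24) := by
  obtain ⟨Nc, hNc⟩ := h1
  obtain ⟨Nu, hNu⟩ := h2
  obtain ⟨N1, hN1, hN1'⟩ := sgn0 hε sch24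
  obtain ⟨N2, hN2, hN2'⟩ := sgn0 hε sch24e
  set q : ℤ := c + u + 1 with hq
  obtain ⟨t1, t2⟩ := tile_d hu huc hq
  have hadd : 25 * c + 24 * u + 24 = c + 24 * q := by
    rw [hq]
    ring
  unfold P
  rw [hadd, t1]
  refine LG.union' h ?_ t2
  have hfib := fib (q := q) (ε := ε) (D := dtu c u)
    (V := fun x => if x ∈ SI 1 24 then (if x % 2 = 0 then Nc else Nu) else fun _ => ∅)
    (H := fun j => if -u ≤ j ∧ j ≤ u then N1 else if -c ≤ j ∧ j ≤ c then N2 else fun _ => ∅)
    (C := fun x => if x ∈ SI 1 24 then (if x % 2 = 0 then I c else I u) else ∅)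
    (R := fun j => if -u ≤ j ∧ j ≤ u then SI 1 24 else
      if -c ≤ j ∧ j ≤ c then (SI 1 24).filter (fun x => x % 2 = 0) else ∅)
    (a := a) (b := 2) (by omega) hε ?_ ?_ ?_ ?_ ?_ ?_ ?_ ?_ ?_ ?_
  · have e : ε * (((a + 2 : ℕ) : ℤ) - 1) = ε * ((a : ℤ) + (2 : ℕ) - 1) := by
      push_cast
      ring
    rw [e]
    exact ⟨_, hfib⟩
  · intro x j
    rw [mem_dtu]
    by_cases hx : x ∈ SI 1 24
    · rw [if_pos hx]
      rw [mem_SI] at hx
      by_cases he : x % 2 = 0
      · rw [if_pos he, mem_I]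
        omega
      · rw [if_neg he, mem_I]
        omega
    · rw [if_neg hx]
      rw [mem_SI] at hx
      constructor
      · intro h
        simp at h
      · intro h
        exfalso
        omega
  · intro j x
    rw [mem_dtu]
    by_cases hj : -u ≤ j ∧ j ≤ u
    · rw [if_pos hj, mem_SI]
      omega
    · rw [if_neg hj]
      by_cases hj2 : -c ≤ j ∧ j ≤ c
      · rw [if_pos hj2, mem_filter, mem_SI]
        omega
      · rw [if_neg hj2]
        constructor
        · intro h
          simp at h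
        · intro h
          exfalso
          omega
  · rintro ⟨x, j⟩ hp ⟨x', j'⟩ hp' e
    simp only at e
    rcases lt_trichotomy x x' with hlt | heq | hlt
    · exact absurd e (dtu_inj hu huc hq hp hp' hlt)
    · subst heq
      have : j = j' := by linarith
      rw [this]
    · exact absurd e.symm (dtu_inj hu huc hq hp' hp hlt)
  · intro x j h
    rw [mem_dtu] at h ⊢
    omega
  · intro x j h
    rw [mem_dtu] at h ⊢
    omega
  · intro x
    by_cases hx : x ∈ SI 1 24
    · simp only [if_pos hx]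
      by_cases he : x % 2 = 0
      · simp only [if_pos he]
        exact hNc
      · simp only [if_neg he]
        exact hNu
    · simp only [if_neg hx]
      exact isLG_empty _ _
  · intro j
    have e : ε * (((2 : ℕ) : ℤ) - 1) = ε * 1 := by norm_num
    rw [e]
    by_cases hj : -u ≤ j ∧ j ≤ u
    · simp only [if_pos hj]
      exact hN1
    · simp only [if_neg hj]
      by_cases hj2 : -c ≤ j ∧ j ≤ c
      · simp only [if_pos hj2]
        exact hN2
      · simp only [if_neg hj2]
        exact isLG_empty _ _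
  · intro x
    have e1 : (-x ∈ SI 1 24) = (x ∈ SI 1 24) := by
      rw [mem_SI, mem_SI]
      apply propext
      omega
    have e2 : ((-x) % 2 = 0) = (x % 2 = 0) := by
      apply propext
      omega
    simp only [e1, e2]
  · intro j
    have e1 : (-u ≤ -j ∧ -j ≤ u) = (-u ≤ j ∧ j ≤ u) := by
      apply propext
      omega
    have e2 : (-c ≤ -j ∧ -j ≤ c) = (-c ≤ j ∧ j ≤ c) := by
      apply propext
      omega
    simp only [e1, e2]
  · intro j x
    by_cases hj : -u ≤ j ∧ j ≤ u
    · simp only [if_pos hj]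
      exact hN1' x
    · simp only [if_neg hj]
      by_cases hj2 : -c ≤ j ∧ j ≤ c
      · simp only [if_pos hj2]
        exact hN2' x
      · simp only [if_neg hj2]
        simp

end Pool.Agent.Helper74.Gp
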