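import Pool.Agent.Helper74.Gp.Step4
import Pool.Agent.Helper74.Gp.StepD
import Pool.Agent.Helper74.Gp.Big
import Pool.Agent.Helper74.Gp.Cores
import Pool.Agent.Helper74.Gp.FTab
import Pool.Agent.Helper74.Gp.KTab

/-! Extreme label graphs for all even degrees. -/

namespace Pool.Agent.Helper74.Gp

open Finset Pool.Agent.Helper74.Hc

theorem orb_mem {P : ℤ → Prop} {a b c d e f : ℤ}
    (h1 : a % 24 ∈ ([0, 3, 12, 15] : List ℤ)) (h2 : b % 24 ∈ ([2, 5, 14, 17] : List ℤ))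
    (h3 : c % 24 ∈ ([6, 9, 18, 21] : List ℤ)) (h4 : d % 24 ∈ ([8, 11, 20, 23] : List ℤ))
    (h5 : e % 24 ∈ ([1, 10, 13, 22] : List ℤ)) (h6 : f % 24 ∈ ([4, 7, 16, 19] : List ℤ))
    (p1 : 0 ≤ a ∧ P a) (p2 : 0 ≤ b ∧ P b) (p3 : 0 ≤ c ∧ P c) (p4 : 0 ≤ d ∧ P d) (p5 : 0 ≤ e ∧ P e)
    (p6 : 0 ≤ f ∧ P f) :
    ∀ o ∈ ([[0, 3, 12, 15], [2, 5, 14, 17], [6, 9, 18, 21], [8, 11, 20, 23], [1, 10, 13, 22],
      [4, 7, 16, 19]] : List (List ℤ)), ∃ i ∈ o, ∃ c, 0 ≤ c ∧ c % 24 = i ∧ P c := by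
  intro o ho
  simp only [List.mem_cons, List.not_mem_nil, or_false] at ho
  rcases ho with rfl | rfl | rfl | rfl | rfl | rfl
  · exact ⟨_, h1, a, p1.1, rfl, p1.2⟩
  · exact ⟨_, h2, b, p2.1, rfl, p2.2⟩
  · exact ⟨_, h3, c, p3.1, rfl, p3.2⟩
  · exact ⟨_, h4, d, p4.1, rfl, p4.2⟩
  · exact ⟨_, h5, e, p5.1, rfl, p5.2⟩
  · exact ⟨_, h6, f, p6.1, rfl, p6.2⟩

/-- degree 4 -/
theorem main4 {ε : ℤ} (hε : ε = 1 ∨ ε = -1) : ∃ W : ℤ, ∀ m, W ≤ m → P ε 4 m := by
  have hC : ∀ κ B : ℤ, ∃ c, B ≤ c ∧ c % 24 = κ % 24 ∧ P ε 4 c := by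
    refine cores (W := 0) ?_ ?_ ?_ ?_
    · intro c hc h
      refine ⟨24 * (2 * c + 1) + c, by omega, by omega, ?_⟩
      exact unif hε (by norm_num) hc (by exact_mod_cast ef4_24) h
    · intro c hc h
      refine ⟨27 * (2 * c + 1) + c, by omega, by omega, ?_⟩
      exact unif hε (by norm_num) hc (by exact_mod_cast ef4_27) h
    · intro c hc h
      refine ⟨15 * (2 * c + 1) + c, by omega, by omega, ?_⟩
      exact unif hε (by norm_num) hc (by exact_mod_cast ef4_15) h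
    · rcases hε with rfl | rfl
      · refine orb_mem (a := 15) (b := 17) (c := 18) (d := 20) (e := 13) (f := 16) ?_ ?_ ?_ ?_ ?_ ?_
          ⟨?_, ?_⟩ ⟨?_, ?_⟩ ⟨?_, ?_⟩ ⟨?_, ?_⟩ ⟨?_, ?_⟩ ⟨?_, ?_⟩
        all_goals try norm_num
        · unfold P; norm_num; exact k4_15
        · unfold P; norm_num; exact k4_17
        · unfold P; norm_num; exact k4_18
        · unfold P; norm_num; exact k4_20
        · unfold P; norm_num; exact k4_13
        · unfold P; norm_num; exact k4_16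
      · refine orb_mem (a := 15) (b := 17) (c := 18) (d := 20) (e := 13) (f := 16) ?_ ?_ ?_ ?_ ?_ ?_
          ⟨?_, ?_⟩ ⟨?_, ?_⟩ ⟨?_, ?_⟩ ⟨?_, ?_⟩ ⟨?_, ?_⟩ ⟨?_, ?_⟩
        all_goals try norm_num
        · unfold P; norm_num; exact k4_n15
        · unfold P; norm_num; exact k4_n17
        · unfold P; norm_num; exact k4_n18
        · unfold P; norm_num; exact k4_n20
        · unfold P; norm_num; exact k4_n13
        · unfold P; norm_num; exact k4_n16
  refine big4 ?_ ?_ hC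
  · intro c u s h0 h1 hc h
    exact step_a hε (by exact_mod_cast ef4_24) h0 h1 hc h
  · intro w u s h0 h1 hw h
    exact step_b hε (by exact_mod_cast ef4_25) h0 h1 hw h

/-- degree 6 -/
theorem main6 {ε : ℤ} (hε : ε = 1 ∨ ε = -1) (h4 : ∃ W : ℤ, ∀ m, W ≤ m → P ε 4 m) :
    ∃ W : ℤ, ∀ m, W ≤ m → P ε 6 m := by
  obtain ⟨W, hW⟩ := h4
  have hC : ∀ κ B : ℤ, ∃ c, B ≤ c ∧ c % 24 = κ % 24 ∧ P ε 6 c := by
    refine cores (W := max W 0) ?_ ?_ ?_ ?_
    · intro c hc h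
      refine ⟨24 * (2 * c + 1) + c, by omega, by omega, ?_⟩
      exact unif hε (by norm_num) hc (by exact_mod_cast ef6_24) h
    · intro c hc h
      refine ⟨3 * (2 * c + 1) + c, by omega, by omega, ?_⟩
      exact unif_sch hε (by norm_num) (by omega) sch3 (hW c (by omega)) h
    · intro c hc h
      refine ⟨15 * (2 * c + 1) + c, by omega, by omega, ?_⟩
      exact unif_sch hε (by norm_num) (by omega) sch15 (hW c (by omega)) h
    · rcases hε with rfl | rfl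
      · refine orb_mem (a := 24) (b := 26) (c := 21) (d := 23) (e := 22) (f := 28) ?_ ?_ ?_ ?_ ?_ ?_
          ⟨?_, ?_⟩ ⟨?_, ?_⟩ ⟨?_, ?_⟩ ⟨?_, ?_⟩ ⟨?_, ?_⟩ ⟨?_, ?_⟩
        all_goals try norm_num
        · unfold P; norm_num; exact k6_24
        · unfold P; norm_num; exact k6_26
        · unfold P; norm_num; exact k6_21
        · unfold P; norm_num; exact k6_23
        · unfold P; norm_num; exact k6_22
        · unfold P; norm_num; exact k6_28
      · refine orb_mem (a := 24) (b := 26) (c := 21) (d := 23) (e := 22) (f := 28) ?_ ?_ ?_ ?_ ?_ ?_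
          ⟨?_, ?_⟩ ⟨?_, ?_⟩ ⟨?_, ?_⟩ ⟨?_, ?_⟩ ⟨?_, ?_⟩ ⟨?_, ?_⟩
        all_goals try norm_num
        · unfold P; norm_num; exact k6_n24
        · unfold P; norm_num; exact k6_n26
        · unfold P; norm_num; exact k6_n21
        · unfold P; norm_num; exact k6_n23
        · unfold P; norm_num; exact k6_n22
        · unfold P; norm_num; exact k6_n28
  exact bigd (W := W) (fun c u h1 h2 h3 h => step_d hε h2 h3 (hW c (by omega)) (hW u h1) h) hC

/-- the product with `ks15` -/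
theorem prod15 {ε : ℤ} (hε : ε = 1 ∨ ε = -1) {b : ℕ} {m : ℤ} (hm : 0 ≤ m) (h : P ε b m) :
    P ε (4 + b) (31 * m + 15) := by
  have h1 := prodP (q := 2 * m + 1) hε (by omega) (A := I 15) (J := I m) (a := 4) (b := b) ?_ ?_ ?_
    (by norm_num; exact ks15) h
  · have e : prX (2 * m + 1) (I 15) (I m) = I (31 * m + 15) := by
      ext z
      rw [mem_prX, mem_I]
      constructor
      · rintro ⟨x, hx, j, hj, rfl⟩
        rw [mem_I] at hx hj
        constructor <;> nlinarith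
      · intro hz
        refine ⟨(z + m) / (2 * m + 1), ?_, (z + m) % (2 * m + 1) - m, ?_, ?_⟩
        · rw [mem_I]
          constructor
          · rw [Int.le_ediv_iff_mul_le (by omega)]; linarith
          · have : (z + m) / (2 * m + 1) < 16 := by
              rw [Int.ediv_lt_iff_lt_mul (by omega)]; linarith
            omega
        · rw [mem_I]
          have h2 := Int.emod_nonneg (z + m) (show (2 * m + 1 : ℤ) ≠ 0 by omega)
          have h3 := Int.emod_lt_of_pos (z + m) (show (0 : ℤ) < 2 * m + 1 by omega)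
          omega
        · have := Int.mul_ediv_add_emod (z + m) (2 * m + 1)
          linarith
    rw [e] at h1
    unfold P
    have e2 : ε * (((4 + b : ℕ) : ℤ) - 1) = ε * (((4 : ℕ) : ℤ) + b - 1) := by push_cast; ring
    rw [e2]
    exact h1
  · intro x hx j hj x' hx' j' hj' he
    rw [mem_I] at hx hj hx' hj'
    have h3 : x = x' := by
      by_contra hne
      rcases lt_or_gt_of_ne hne with h4 | h4
      · nlinarith
      · nlinarith
    subst h3
    exact ⟨rfl, by linarith⟩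
  · intro x hx
    rw [mem_I] at hx ⊢
    omega
  · intro x hx
    rw [mem_I] at hx ⊢
    omega

/-- degrees `≥ 8` -/
theorem main8 {ε : ℤ} (hε : ε = 1 ∨ ε = -1) {r : ℕ} (h4 : ∃ W : ℤ, ∀ m, W ≤ m → P ε r m)
    (h6 : ∃ W : ℤ, ∀ m, W ≤ m → P ε (r + 2) m) : ∃ W : ℤ, ∀ m, W ≤ m → P ε (r + 4) m := by
  obtain ⟨W, hW⟩ := h4
  obtain ⟨W', hW'⟩ := h6
  have hC : ∀ κ B : ℤ, ∃ c, B ≤ c ∧ c % 24 = κ % 24 ∧ P ε (r + 4) c := by
    intro κ B
    set m : ℤ := 24 * (|W| + |B|) + 7 * (κ - 15) % 24 with hm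
    have h1 : 0 ≤ 7 * (κ - 15) % 24 := Int.emod_nonneg _ (by norm_num)
    have h2 : 7 * (κ - 15) % 24 < 24 := Int.emod_lt_of_pos _ (by norm_num)
    have hw := le_abs_self W
    have hb := le_abs_self B
    have hw0 := abs_nonneg W
    have hb0 := abs_nonneg B
    refine ⟨31 * m + 15, by omega, by omega, ?_⟩
    have := prod15 hε (by omega : 0 ≤ m) (hW m (by omega))
    rwa [add_comm] at this
  exact bigd (W := W') (fun c u h1 h2 h3 h => step_d hε (a := r + 2) h2 h3 (hW' c (by omega)) (hW' u h1) h) hC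

/-- all even degrees `≥ 4` -/
theorem main_all {ε : ℤ} (hε : ε = 1 ∨ ε = -1) (k : ℕ) :
    (∃ W : ℤ, ∀ m, W ≤ m → P ε (2 * k + 4) m) ∧ ∃ W : ℤ, ∀ m, W ≤ m → P ε (2 * k + 6) m := by
  induction k with
  | zero => exact ⟨main4 hε, main6 hε (main4 hε)⟩
  | succ k ih =>
    refine ⟨?_, ?_⟩
    · have := ih.2
      rwa [show 2 * (k + 1) + 4 = 2 * k + 6 by ring]
    · have := main8 hε ih.1 (by rw [show 2 * k + 4 + 2 = 2 * k + 6 by ring]; exact ih.2)
      rwa [show 2 * (k + 1) + 6 = 2 * k + 4 + 4 by ring]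

theorem main_even {ε : ℤ} (hε : ε = 1 ∨ ε = -1) {r : ℕ} (hr : Even r) (h4 : 4 ≤ r) :
    ∃ W : ℤ, ∀ m, W ≤ m → P ε r m := by
  obtain ⟨k, hk⟩ := hr
  have : r = 2 * (k - 2) + 4 := by omega
  rw [this]
  exact (main_all hε (k - 2)).1

end Pool.Agent.Helper74.Gp
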