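import Pool.Agent.Helper74.Gp.Defs

/-! GP-5. Products `prX q A J` of a symmetric graph on `A` with a graph on `J`, with sign `ε`.

PLAN: `Hc.prod_gen` (file `Hc/ExProd.lean`). For `ε = 1` take `N₁` from `h1`; for `ε = -1` take the
graph of `h1.neg` (`LGS.neg` in `Hc/Union.lean`); it has no loops, so `hl` holds (left alternative:
`ε x ∉ N₁ x`, for `ε = 1` irreflexivity, for `ε = -1` no edge `x — -x`). The slope condition is
`ε (a - 1) + ε b = ε (b - 1) + ε a`; final slope `ε (a - 1) + ε b`. -/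

namespace Pool.Agent.Helper74.Gp

open Finset Pool.Agent.Helper74.Hc

/-- GP-5 -/
theorem prodP {ε q : ℤ} (hε : ε = 1 ∨ ε = -1) (hq : q ≠ 0) {A J : Finset ℤ} {a b : ℕ}
    (hinj : ∀ x ∈ A, ∀ j ∈ J, ∀ x' ∈ A, ∀ j' ∈ J, q * x + j = q * x' + j' → x = x' ∧ j = j')
    (hA : ∀ x ∈ A, -x ∈ A) (hJ : ∀ j ∈ J, -j ∈ J)
    (h1 : LGS A a ((a : ℤ) - 1)) (h2 : LG J b (ε * ((b : ℤ) - 1))) :
    LG (prX q A J) (a + b) (ε * ((a : ℤ) + b - 1)) := by
  have hA' : ∀ x ∈ A, ε * x ∈ A := by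
    intro x hx
    rcases hε with rfl | rfl
    · rwa [one_mul]
    · rw [neg_one_mul]
      exact hA x hx
  have hJ' : ∀ x ∈ J, ε * x ∈ J := by
    intro x hx
    rcases hε with rfl | rfl
    · rwa [one_mul]
    · rw [neg_one_mul]
      exact hJ x hx
  have hN : ∃ N, IsLG N A a (ε * ((a : ℤ) - 1)) ∧ ∀ x, ε * x ∉ N x := by
    rcases hε with rfl | rfl
    · obtain ⟨N, h3, _, _⟩ := h1
      refine ⟨N, ?_, fun x => ?_⟩
      · rwa [one_mul]
      · rw [one_mul]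
        exact h3.gr.irr x
    · obtain ⟨N, h3, h4, _⟩ := h1.neg
      refine ⟨N, ?_, fun x => ?_⟩
      · rwa [neg_one_mul]
      · rw [neg_one_mul]
        exact h4 x
  obtain ⟨N₁, h3, h4⟩ := hN
  obtain ⟨N₂, h5⟩ := h2
  have h6 := prod_gen hq hε h3 h5 hinj hA' hJ' (Or.inl h4) (by ring)
  have e : ε * ((a : ℤ) - 1) + ε * (b : ℤ) = ε * ((a : ℤ) + b - 1) := by ring
  rw [e] at h6
  exact ⟨prN q ε A J N₁ N₂, h6⟩

end Pool.Agent.Helper74.Gp
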