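import Pool.Agent.Helper74.Gp.LiftF
import Pool.Agent.Helper74.Gp.Prod2
import Pool.Agent.Helper74.Gp.Tile
import Pool.Agent.Helper74.Gp.Shell

/-! GP-8b. The step in degree 4 with core `I c`.

PLAN. `tile_a` with `q = c + u + 1`; on `prX q (SI 1 24) (I u)` use `hE.lift` (`2u < q`) and `LGS.sgn`; on
`prX (2q) (SI 1 12) (SI (u+1) c)` use `prodP` with `sch12` and `shell (t := u+1) (s := s)` (signed by `LGS.sgn`;
`13 (u+1) + 12 s - 1 = c`), degrees `2 + 2`; injectivity: `|j|, |j'| ≤ c` and `2 q > 2 c`. Then `LG.union'` twice.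
Note `25 c + 24 u + 24 = c + 24 (c + u + 1)`. Unfold `P`; the slopes are `ε * (4 - 1)`, `ε * (2 + 2 - 1)` up to
casts (`norm_num`/`push_cast; ring`). -/

namespace Pool.Agent.Helper74.Gp

open Finset Pool.Agent.Helper74.Hc

private theorem StepA_inj {c q : ℤ} (hq : c < q) (hc : 0 ≤ c) {A J : Finset ℤ}
    (hJ : ∀ j ∈ J, -c ≤ j ∧ j ≤ c) :
    ∀ x ∈ A, ∀ j ∈ J, ∀ x' ∈ A, ∀ j' ∈ J, 2 * q * x + j = 2 * q * x' + j' → x = x' ∧ j = j' := by
  intro x _ j hj x' _ j' hj' h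
  have h1 := hJ j hj
  have h2 := hJ j' hj'
  have h3 : 2 * q * (x - x') = j' - j := by linarith
  have h4 : x = x' := by
    by_contra hne
    rcases lt_or_gt_of_ne hne with h5 | h5
    · have : 2 * q * (x - x') ≤ 2 * q * (-1) := mul_le_mul_of_nonneg_left (by omega) (by omega)
      omega
    · have : 2 * q * 1 ≤ 2 * q * (x - x') := mul_le_mul_of_nonneg_left (by omega) (by omega)
      omega
  refine ⟨h4, ?_⟩
  rw [h4] at h
  omega

private theorem StepA_neg {a b : ℤ} : ∀ x ∈ SI a b, -x ∈ SI a b := by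
  intro x hx
  rw [mem_SI] at hx ⊢
  omega

/-- GP-8b -/
theorem step_a {ε : ℤ} (hε : ε = 1 ∨ ε = -1) (hE : EF (SI 1 24) 4) {c u s : ℤ} (h0 : 0 ≤ s)
    (h1 : s + 1 ≤ u) (hc : c = 13 * u + 12 + 12 * s) (h : P ε 4 c) : P ε 4 (25 * c + 24 * u + 24) := by
  have hu : 0 ≤ u := by omega
  obtain ⟨e1, d1, d2⟩ := tile_a (c := c) (u := u) (q := c + u + 1) hu (by omega) rfl
  have e2 : 25 * c + 24 * u + 24 = c + 24 * (c + u + 1) := by ring
  have c2 : ((2 : ℕ) : ℤ) - 1 = 1 := by norm_num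
  have hA : LG (prX (c + u + 1) (SI 1 24) (I u)) 4 (ε * (((4 : ℕ) : ℤ) - 1)) :=
    LGS.sgn hε (hE.lift hu (by omega))
  have hB1 : LGS (SI 1 12) 2 (((2 : ℕ) : ℤ) - 1) := by
    rw [c2]
    exact sch12
  have hB2 : LG (SI (u + 1) c) 2 (ε * (((2 : ℕ) : ℤ) - 1)) := by
    have h2 := shell (s := s) (t := u + 1) h0 (by omega)
    have h3 : 13 * (u + 1) + 12 * s - 1 = c := by omega
    rw [h3] at h2
    rw [c2]
    exact LGS.sgn hε h2
  have hB : LG (prX (2 * (c + u + 1)) (SI 1 12) (SI (u + 1) c)) (2 + 2)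
      (ε * (((2 : ℕ) : ℤ) + ((2 : ℕ) : ℤ) - 1)) :=
    prodP hε (by omega) (StepA_inj (c := c) (by omega) (by omega) (by
      intro j hj
      rw [mem_SI] at hj
      omega)) StepA_neg StepA_neg hB1 hB2
  have c4 : (ε * (((2 : ℕ) : ℤ) + ((2 : ℕ) : ℤ) - 1)) = ε * (((4 : ℕ) : ℤ) - 1) := by
    norm_num
  rw [c4] at hB
  unfold P at h ⊢
  rw [e2, e1]
  exact LG.union' h (LG.union' hA hB d2) d1

end Pool.Agent.Helper74.Gp
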