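import Pool.Agent.Helper74.Gp.LiftF
import Pool.Agent.Helper74.Gp.Prod2
import Pool.Agent.Helper74.Gp.Tile
import Pool.Agent.Helper74.Gp.Shell

/-! GP-8c. The step in degree 4 with core `I (w + 2u + 1)`.

PLAN. `tile_b` with `q = w + u + 1` (`25 (w + 2u + 1) - 24 u = 25 q + u`, `w + 2u + 1 = q + u`); on
`prX q (SI 2 25) (I u)` use `hE.lift` (`2u < q`) and `LGS.sgn`; on `prX (2q) (SI 1 12) (SI (u+1) w)` use `prodP`
with `sch12` and `shell (t := u+1) (s := s)` (signed by `LGS.sgn`; `13 (u+1) + 12 s - 1 = w`), degrees `2 + 2`;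
injectivity: `|j|, |j'| ≤ w` and `2 q > 2 w`. Then `LG.union'` twice. -/

namespace Pool.Agent.Helper74.Gp

open Finset Pool.Agent.Helper74.Hc

/-- GP-8c -/
theorem step_b {ε : ℤ} (hε : ε = 1 ∨ ε = -1) (hE : EF (SI 2 25) 4) {w u s : ℤ} (h0 : 0 ≤ s)
    (h1 : s + 1 ≤ u) (hw : w = 13 * u + 12 + 12 * s) (h : P ε 4 (w + 2 * u + 1)) :
    P ε 4 (25 * (w + 2 * u + 1) - 24 * u) := by
  obtain ⟨q, hq⟩ : ∃ q : ℤ, q = w + u + 1 := ⟨_, rfl⟩
  have hu : 0 ≤ u := by omega
  have huw : u ≤ w := by omega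
  obtain ⟨ht, hd1, hd2⟩ := tile_b hu huw hq
  have e1 : 25 * (w + 2 * u + 1) - 24 * u = 25 * q + u := by rw [hq]; ring
  have e2 : w + 2 * u + 1 = q + u := by rw [hq]; ring
  unfold P at h ⊢
  rw [e1, ht]
  rw [e2] at h
  refine LG.union' h (LG.union' ?_ ?_ hd2) hd1
  · exact LGS.sgn hε (hE.lift hu (by omega : 2 * u < q))
  · have hinj : ∀ x ∈ SI 1 12, ∀ j ∈ SI (u + 1) w, ∀ x' ∈ SI 1 12, ∀ j' ∈ SI (u + 1) w,
        2 * q * x + j = 2 * q * x' + j' → x = x' ∧ j = j' := by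
      intro x _ j hj x' _ j' hj' he
      rw [mem_SI] at hj hj'
      have hj1 : -w ≤ j ∧ j ≤ w := by omega
      have hj2 : -w ≤ j' ∧ j' ≤ w := by omega
      have hx : x = x' := by
        rcases lt_trichotomy x x' with hlt | heq | hgt
        · exfalso
          have h3 : 1 ≤ x' - x := by omega
          nlinarith
        · exact heq
        · exfalso
          have h3 : 1 ≤ x - x' := by omega
          nlinarith
      subst hx
      exact ⟨rfl, by linarith⟩
    have hs : LGS (SI (u + 1) w) 2 1 := by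
      have h3 := shell (s := s) (t := u + 1) h0 (by omega)
      have e3 : 13 * (u + 1) + 12 * s - 1 = w := by omega
      rwa [e3] at h3
    have h4 := prodP (q := 2 * q) hε (by omega) hinj
      (fun x hx => by rw [mem_SI] at hx ⊢; omega) (fun x hx => by rw [mem_SI] at hx ⊢; omega)
      (a := 2) (b := 2) (by simpa using sch12) (by
        have h5 := LGS.sgn hε hs
        have e4 : ((2 : ℕ) : ℤ) - 1 = 1 := by norm_num
        rw [e4]
        exact h5)
    have e5 : ε * (((2 : ℕ) : ℤ) + ((2 : ℕ) : ℤ) - 1) = ε * (((4 : ℕ) : ℤ) - 1) := by norm_num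
    rw [e5] at h4
    exact h4

end Pool.Agent.Helper74.Gp
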