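import Pool.Agent.Helper74.Gp.LiftF
import Pool.Agent.Helper74.Gp.Prod2
import Pool.Agent.Helper74.Gp.Tile
import Pool.Agent.Helper74.Gp.Shell

/-! GP-8a, 8d. The uniform steps (all blocks of the same radius).

PLAN. (8a) `tile_u`, `LG.union'`, `EF.lift` with `q = 2c+1`, `u = c`, then `LGS.sgn`.
(8d) `tile_u` with `prodP`: `A = SI 1 n`, `J = I c`, `q = 2c+1`, degrees `2 + r` (rewrite `r + 2 = 2 + r`);
injectivity: `|j|, |j'| ≤ c < 2c + 1 - c`. `SI` is closed under `x ↦ -x` (`mem_SI`, omega). -/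

namespace Pool.Agent.Helper74.Gp

open Finset Pool.Agent.Helper74.Hc

/-- GP-8a -/
theorem unif {ε : ℤ} (hε : ε = 1 ∨ ε = -1) {r : ℕ} {n c : ℤ} (hn : 0 ≤ n) (hc : 0 ≤ c)
    (hE : EF (SI 1 n) r) (h : P ε r c) : P ε r (n * (2 * c + 1) + c) := by
  obtain ⟨h1, h2⟩ := tile_u hn hc
  unfold P
  rw [h1]
  exact LG.union' h (LGS.sgn hε (hE.lift hc (by omega))) h2

/-- GP-8d -/
theorem unif_sch {ε : ℤ} (hε : ε = 1 ∨ ε = -1) {r : ℕ} {n c : ℤ} (hn : 0 ≤ n) (hc : 0 ≤ c)
    (hA : LGS (SI 1 n) 2 1) (h : P ε r c) (h' : P ε (r + 2) c) : P ε (r + 2) (n * (2 * c + 1) + c) := by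
  obtain ⟨h1, h2⟩ := tile_u hn hc
  have h3 : LG (prX (2 * c + 1) (SI 1 n) (I c)) (r + 2) (ε * (((r + 2 : ℕ) : ℤ) - 1)) := by
    have h4 := prodP (q := 2 * c + 1) (A := SI 1 n) (J := I c) (a := 2) (b := r) hε (by omega)
      (by
        intro x hx j hj x' hx' j' hj' h
        rw [mem_I] at hj hj'
        have h5 : (2 * c + 1) * (x - x') = j' - j := by linarith
        have h6 : x - x' = 0 := by
          by_contra hne
          rcases lt_or_gt_of_ne hne with h7 | h7
          · have : (2 * c + 1) * (x - x') ≤ (2 * c + 1) * (-1) :=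
              mul_le_mul_of_nonneg_left (by omega) (by omega)
            omega
          · have : (2 * c + 1) * 1 ≤ (2 * c + 1) * (x - x') :=
              mul_le_mul_of_nonneg_left (by omega) (by omega)
            omega
        rw [h6, mul_zero] at h5
        constructor <;> omega)
      (by
        intro x hx
        rw [mem_SI] at hx ⊢
        omega)
      (by
        intro x hx
        rw [mem_I] at hx ⊢
        omega)
      (by
        have h5 : (((2 : ℕ) : ℤ) - 1) = 1 := by norm_num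
        rw [h5]
        exact hA)
      h
    have h5 : ε * (((r + 2 : ℕ) : ℤ) - 1) = ε * ((((2 : ℕ) : ℤ)) + r - 1) := by
      push_cast
      ring
    rw [h5, add_comm r 2]
    exact h4
  unfold P at h' ⊢
  rw [h1]
  exact LG.union' h' h3 h2

end Pool.Agent.Helper74.Gp
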