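import Pool.Agent.Helper74.Gp.Defs

/-! GP-6a. Tiling of an interval by blocks.

PLAN. membership: `z` with `c < |z| ≤ n (2c+1) + c`: `x = (z + c) / (2c + 1)` (floor), `j = z - (2c+1) x`,
`-c ≤ j ≤ c`; `x ≠ 0` as `|z| > c`; `|x| ≤ n` (nlinarith or by contradiction: `x ≥ n + 1` gives
`z ≥ (2c+1)(n+1) - c`). Conversely `|(2c+1) x + j| ≥ (2c+1) - c > c` for `x ≠ 0`, `|j| ≤ c`. -/

namespace Pool.Agent.Helper74.Gp

open Finset Pool.Agent.Helper74.Hc

/-- GP-6a: all blocks of radius `c` -/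
theorem tile_u {n c : ℤ} (hn : 0 ≤ n) (hc : 0 ≤ c) :
    I (n * (2 * c + 1) + c) = I c ∪ prX (2 * c + 1) (SI 1 n) (I c) ∧
      Disjoint (I c) (prX (2 * c + 1) (SI 1 n) (I c)) := by
  have hq : 0 < 2 * c + 1 := by linarith
  have key : ∀ z : ℤ, z ∈ prX (2 * c + 1) (SI 1 n) (I c) ↔
      (-(n * (2 * c + 1) + c) ≤ z ∧ z ≤ n * (2 * c + 1) + c) ∧ ¬ (-c ≤ z ∧ z ≤ c) := by
    intro z
    rw [mem_prX]
    constructor
    · rintro ⟨x, hx, j, hj, rfl⟩
      rw [mem_SI] at hx
      rw [mem_I] at hj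
      obtain ⟨hj1, hj2⟩ := hj
      rcases hx with ⟨h1, h2⟩ | ⟨h1, h2⟩
      · have e1 : 0 ≤ (2 * c + 1) * (x - 1) := mul_nonneg hq.le (by linarith)
        have e2 : 0 ≤ (2 * c + 1) * (n - x) := mul_nonneg hq.le (by linarith)
        refine ⟨⟨?_, ?_⟩, ?_⟩
        · nlinarith
        · nlinarith
        · rintro ⟨-, h⟩
          nlinarith
      · have e1 : 0 ≤ (2 * c + 1) * (-x - 1) := mul_nonneg hq.le (by linarith)
        have e2 : 0 ≤ (2 * c + 1) * (n + x) := mul_nonneg hq.le (by linarith)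
        refine ⟨⟨?_, ?_⟩, ?_⟩
        · nlinarith
        · nlinarith
        · rintro ⟨h, -⟩
          nlinarith
    · rintro ⟨⟨h1, h2⟩, h3⟩
      have hdm := Int.emod_add_mul_ediv (z + c) (2 * c + 1)
      have hm0 := Int.emod_nonneg (z + c) hq.ne'
      have hm1 := Int.emod_lt_of_pos (z + c) hq
      set x := (z + c) / (2 * c + 1) with hx
      set r := (z + c) % (2 * c + 1) with hr
      refine ⟨x, ?_, r - c, mem_I.2 ⟨by linarith, by linarith⟩, by linarith⟩
      rw [mem_SI]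
      rcases lt_trichotomy x 0 with hx0 | hx0 | hx0
      · right
        refine ⟨?_, by omega⟩
        by_contra hcon
        have : 0 ≤ (2 * c + 1) * (-n - 1 - x) := mul_nonneg hq.le (by omega)
        nlinarith
      · exfalso
        rw [hx0, mul_zero, add_zero] at hdm
        exact h3 ⟨by linarith, by linarith⟩
      · left
        refine ⟨by omega, ?_⟩
        by_contra hcon
        have : 0 ≤ (2 * c + 1) * (x - n - 1) := mul_nonneg hq.le (by omega)
        nlinarith
  constructor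
  · ext z
    rw [mem_union, key, mem_I, mem_I]
    constructor
    · intro h
      by_cases h' : -c ≤ z ∧ z ≤ c
      · exact Or.inl h'
      · exact Or.inr ⟨h, h'⟩
    · rintro (h | h)
      · have e : 0 ≤ n * (2 * c + 1) := mul_nonneg hn hq.le
        exact ⟨by linarith [h.1], by linarith [h.2]⟩
      · exact h.1
  · rw [Finset.disjoint_left]
    intro z hz hz'
    exact ((key z).1 hz').2 (mem_I.1 hz)

end Pool.Agent.Helper74.Gp
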